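import Mathlib

set_option autoImplicit false
set_option linter.unusedSectionVars false

open Matrix

namespace Pool.Agent.DetSpec

/-- The weight of the value `b` at an entry whose reference value is `a`. -/
noncomputable def wt (η : ℝ) (a b : Bool) : ℝ := if b = a then 1 - η else η

/-- The weight of a row. -/
noncomputable def rwt (η : ℝ) {n : ℕ} (a f : Fin n → Bool) : ℝ := ∏ j, wt η (a j) (f j)

/-- The `0/1` vector of a Boolean vector. -/
def bv (K : Type) [Field K] {n : ℕ} (f : Fin n → Bool) : Fin n → K := fun j => if f j then 1 else 0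

lemma wt_nonneg {η : ℝ} (h0 : 0 ≤ η) (h1 : η ≤ 1 / 2) (a b : Bool) : 0 ≤ wt η a b := by
  unfold wt; split_ifs <;> linarith

lemma wt_le {η : ℝ} (h1 : η ≤ 1 / 2) (a b : Bool) : wt η a b ≤ 1 - η := by
  unfold wt; split_ifs <;> linarith

lemma wt_sum (η : ℝ) (a : Bool) : ∑ b, wt η a b = 1 := by
  rw [Fintype.sum_bool]
  cases a <;> simp [wt]

lemma rwt_nonneg {η : ℝ} (h0 : 0 ≤ η) (h1 : η ≤ 1 / 2) {n : ℕ} (a f : Fin n → Bool) :
    0 ≤ rwt η a f := Finset.prod_nonneg (fun _ _ => wt_nonneg h0 h1 _ _)

lemma sum_cons {n : ℕ} {α : Type} [Fintype α] {M : Type} [AddCommMonoid M]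
    (g : (Fin (n + 1) → α) → M) :
    ∑ f, g f = ∑ b : α, ∑ f' : Fin n → α, g (Fin.cons b f') := by
  rw [← (Fin.consEquiv (fun _ : Fin (n + 1) => α)).sum_comp, Fintype.sum_prod_type]
  rfl

lemma rwt_sum (η : ℝ) {n : ℕ} (a : Fin n → Bool) : ∑ f, rwt η a f = 1 := by
  induction n with
  | zero => simp [rwt]
  | succ n ih =>
    rw [sum_cons]
    have : ∀ (b : Bool) (f' : Fin n → Bool), rwt η a (Fin.cons b f') =
        wt η (a 0) b * rwt η (fun j => a j.succ) f' := by
      intro b f'
      simp [rwt, Fin.prod_univ_succ]
    simp_rw [this, ← Finset.mul_sum, ih, mul_one]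
    exact wt_sum η (a 0)

open Classical in
/-- Odlyzko's lemma, weighted and affine. -/
lemma odlyzko (K : Type) [Field K] {η : ℝ} (h0 : 0 ≤ η) (h1 : η ≤ 1 / 2) (n : ℕ) :
    ∀ (V : Submodule K (Fin n → K)) (c : Fin n → K) (a : Fin n → Bool),
    ∑ f : Fin n → Bool, (if bv K f - c ∈ V then rwt η a f else 0) ≤
      (1 - η) ^ (n - Module.finrank K V) := by
  have hq0 : 0 ≤ 1 - η := by linarith
  have hq1 : 1 - η ≤ 1 := by linarith
  induction n with
  | zero =>
    intro V c a
    have : ∀ f : Fin 0 → Bool, (if bv K f - c ∈ V then rwt η a f else 0) = 1 := by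
      intro f
      have : bv K f - c = 0 := Subsingleton.elim _ _
      rw [this, if_pos V.zero_mem]
      simp [rwt]
    simp_rw [this]
    simp
  | succ n ih =>
    intro V c a
    let i0 : (Fin n → K) →ₗ[K] (Fin (n + 1) → K) :=
      { toFun := fun v => Fin.cons 0 v
        map_add' := fun x y => by
          funext j; refine Fin.cases ?_ (fun i => ?_) j <;> simp
        map_smul' := fun r x => by
          funext j; refine Fin.cases ?_ (fun i => ?_) j <;> simp }
    have hi0 : Function.Injective i0 := by
      intro x y hxy
      have : (Fin.cons 0 x : Fin (n + 1) → K) = Fin.cons 0 y := hxy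
      exact (Fin.cons_injective2 this).2
    set V0 : Submodule K (Fin n → K) := V.comap i0 with hV0
    have hmap : V0.map i0 ≤ V := Submodule.map_comap_le _ _
    have hdim : Module.finrank K (V0.map i0) = Module.finrank K V0 :=
      (LinearEquiv.finrank_eq (Submodule.equivMapOfInjective i0 hi0 V0)).symm
    have hle : Module.finrank K V0 ≤ Module.finrank K V := by
      rw [← hdim]; exact Submodule.finrank_mono hmap
    have hV0n : Module.finrank K V0 ≤ n := by
      have := Submodule.finrank_le V0
      rwa [Module.finrank_fin_fun] at this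
    have hVn : Module.finrank K V ≤ n + 1 := by
      have := Submodule.finrank_le V
      rwa [Module.finrank_fin_fun] at this
    rw [sum_cons]
    have hrw : ∀ (b : Bool) (f' : Fin n → Bool), rwt η a (Fin.cons b f') =
        wt η (a 0) b * rwt η (fun j => a j.succ) f' := by
      intro b f'
      simp [rwt, Fin.prod_univ_succ]
    -- bound of the inner sums
    have inner : ∀ b : Bool, ∑ f' : Fin n → Bool,
        (if bv K (Fin.cons b f' : Fin (n + 1) → Bool) - c ∈ V then
          rwt η a (Fin.cons b f') else 0) ≤
        wt η (a 0) b * (1 - η) ^ (n - Module.finrank K V0) := by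
      intro b
      by_cases hex : ∃ v ∈ V, v 0 = (if b then 1 else 0) - c 0
      · obtain ⟨v, hv, hv0⟩ := hex
        have hiff : ∀ f' : Fin n → Bool,
            bv K (Fin.cons b f' : Fin (n + 1) → Bool) - c ∈ V ↔
            bv K f' - (fun j => c j.succ + v j.succ) ∈ V0 := by
          intro f'
          have e1 : i0 (bv K f' - (fun j => c j.succ + v j.succ)) =
              bv K (Fin.cons b f' : Fin (n + 1) → Bool) - c - v := by
            funext j
            refine Fin.cases ?_ (fun i => ?_) j
            · change (0 : K) = (if b then 1 else 0) - c 0 - v 0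
              rw [hv0]; ring
            · change (if f' i then (1 : K) else 0) - (c i.succ + v i.succ) =
                (if f' i then (1 : K) else 0) - c i.succ - v i.succ
              ring
          rw [hV0, Submodule.mem_comap, e1]
          constructor
          · intro h; exact V.sub_mem h hv
          · intro h
            have := V.add_mem h hv
            rwa [sub_add_cancel] at this
        calc ∑ f' : Fin n → Bool,
            (if bv K (Fin.cons b f' : Fin (n + 1) → Bool) - c ∈ V then
              rwt η a (Fin.cons b f') else 0)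
            = ∑ f' : Fin n → Bool, wt η (a 0) b *
              (if bv K f' - (fun j => c j.succ + v j.succ) ∈ V0 then
                rwt η (fun j => a j.succ) f' else 0) := by
              refine Finset.sum_congr rfl (fun f' _ => ?_)
              rw [if_congr (hiff f') (hrw b f') rfl]
              split_ifs <;> simp
          _ = wt η (a 0) b * ∑ f' : Fin n → Bool,
              (if bv K f' - (fun j => c j.succ + v j.succ) ∈ V0 then
                rwt η (fun j => a j.succ) f' else 0) := by rw [Finset.mul_sum]
          _ ≤ _ := mul_le_mul_of_nonneg_left (ih V0 _ _) (wt_nonneg h0 h1 _ _)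
      · have hno : ∀ f' : Fin n → Bool,
            ¬ (bv K (Fin.cons b f' : Fin (n + 1) → Bool) - c ∈ V) := by
          intro f' hmem
          exact hex ⟨_, hmem, rfl⟩
        calc ∑ f' : Fin n → Bool,
            (if bv K (Fin.cons b f' : Fin (n + 1) → Bool) - c ∈ V then
              rwt η a (Fin.cons b f') else 0) = 0 :=
              Finset.sum_eq_zero (fun f' _ => if_neg (hno f'))
          _ ≤ _ := mul_nonneg (wt_nonneg h0 h1 _ _) (pow_nonneg hq0 _)
    by_cases hall : ∀ v ∈ V, v 0 = 0
    · -- the first coordinate is constant
      have inner' : ∀ b : Bool, ∑ f' : Fin n → Bool,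
          (if bv K (Fin.cons b f' : Fin (n + 1) → Bool) - c ∈ V then
            rwt η a (Fin.cons b f') else 0) ≤
          (if (if b then (1 : K) else 0) = c 0 then
            (1 - η) * (1 - η) ^ (n - Module.finrank K V0) else 0) := by
        intro b
        by_cases hb : (if b then (1 : K) else 0) = c 0
        · rw [if_pos hb]
          exact (inner b).trans (mul_le_mul_of_nonneg_right (wt_le h1 _ _) (pow_nonneg hq0 _))
        · rw [if_neg hb]
          refine le_of_eq (Finset.sum_eq_zero (fun f' _ => if_neg ?_))
          intro hmem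
          have := hall _ hmem
          exact hb (sub_eq_zero.1 this)
      have h3 : ∑ b : Bool, (if (if b then (1 : K) else 0) = c 0 then
            (1 - η) * (1 - η) ^ (n - Module.finrank K V0) else (0 : ℝ)) ≤
            (1 - η) * (1 - η) ^ (n - Module.finrank K V0) := by
        have hpos : 0 ≤ (1 - η) * (1 - η) ^ (n - Module.finrank K V0) :=
          mul_nonneg hq0 (pow_nonneg hq0 _)
        rw [Fintype.sum_bool]
        by_cases hc0 : (0 : K) = c 0
        · have hc1 : ¬ ((1 : K) = c 0) := by rw [← hc0]; exact one_ne_zero
          simp [hc0.symm]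
        · simp only [if_true, Bool.false_eq_true, if_false, hc0, add_zero]
          split_ifs
          · exact le_refl _
          · exact hpos
      calc _ ≤ ∑ b : Bool, (if (if b then (1 : K) else 0) = c 0 then
            (1 - η) * (1 - η) ^ (n - Module.finrank K V0) else (0 : ℝ)) :=
            Finset.sum_le_sum (fun b _ => inner' b)
        _ ≤ (1 - η) * (1 - η) ^ (n - Module.finrank K V0) := h3
        _ = (1 - η) ^ (n - Module.finrank K V0 + 1) := by rw [pow_succ]; ring
        _ ≤ (1 - η) ^ (n + 1 - Module.finrank K V) :=
            pow_le_pow_of_le_one hq0 hq1 (by omega)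
    · push Not at hall
      obtain ⟨v, hv, hv0⟩ := hall
      have hlt : V0.map i0 < V := by
        refine lt_of_le_of_ne hmap ?_
        intro heq
        rw [← heq] at hv
        obtain ⟨w, -, hw⟩ := hv
        apply hv0
        rw [← hw]
        rfl
      have hlt' : Module.finrank K V0 < Module.finrank K V := by
        rw [← hdim]; exact Submodule.finrank_lt_finrank_of_lt hlt
      calc _ ≤ ∑ b : Bool, wt η (a 0) b * (1 - η) ^ (n - Module.finrank K V0) :=
            Finset.sum_le_sum (fun b _ => inner b)
        _ = (1 - η) ^ (n - Module.finrank K V0) := by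
            rw [← Finset.sum_mul, wt_sum, one_mul]
        _ ≤ (1 - η) ^ (n + 1 - Module.finrank K V) :=
            pow_le_pow_of_le_one hq0 hq1 (by omega)

end Pool.Agent.DetSpec
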