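import Mathlib

set_option autoImplicit false
set_option linter.unusedSectionVars false

open Matrix

namespace Pool.Agent.DetSpec

variable {ι : Type} [Fintype ι] [DecidableEq ι]

/-- Reduction of an integer matrix modulo `p`. -/
def red (p : ℕ) {κ : Type} (A : Matrix ι κ ℤ) : Matrix ι κ (ZMod p) :=
  A.map (fun z : ℤ => (z : ZMod p))

/-- Reduction of an integer vector modulo `p`. -/
def redv (p : ℕ) {κ : Type} (b : κ → ℤ) : κ → ZMod p := fun i => (b i : ZMod p)

/-- The dimension of the kernel of `A` modulo `p`. -/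
noncomputable def nul (p : ℕ) [Fact p.Prime] (A : Matrix ι ι ℤ) : ℕ :=
  Module.finrank (ZMod p) (LinearMap.ker (Matrix.mulVecLin (red p A)))

/-- `A` bordered by the column `b`, the row `c` and the corner `e`. -/
def bord (A : Matrix ι ι ℤ) (b c : ι → ℤ) (e : ℤ) : Matrix (ι ⊕ Unit) (ι ⊕ Unit) ℤ :=
  fromBlocks A (fun i _ => b i) (fun _ j => c j) (fun _ _ => e)

@[simp] lemma bord_ll (A : Matrix ι ι ℤ) (b c : ι → ℤ) (e : ℤ) (i j : ι) :
    bord A b c e (Sum.inl i) (Sum.inl j) = A i j := rfl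
@[simp] lemma bord_lr (A : Matrix ι ι ℤ) (b c : ι → ℤ) (e : ℤ) (i : ι) (u : Unit) :
    bord A b c e (Sum.inl i) (Sum.inr u) = b i := rfl
@[simp] lemma bord_rl (A : Matrix ι ι ℤ) (b c : ι → ℤ) (e : ℤ) (u : Unit) (j : ι) :
    bord A b c e (Sum.inr u) (Sum.inl j) = c j := rfl
@[simp] lemma bord_rr (A : Matrix ι ι ℤ) (b c : ι → ℤ) (e : ℤ) (u v : Unit) :
    bord A b c e (Sum.inr u) (Sum.inr v) = e := rfl

lemma mem_ker_bord (p : ℕ) [Fact p.Prime] (A : Matrix ι ι ℤ) (b c : ι → ℤ) (e : ℤ)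
    (x : ι ⊕ Unit → ZMod p) :
    x ∈ LinearMap.ker (Matrix.mulVecLin (red p (bord A b c e))) ↔
      (red p A *ᵥ (fun i => x (Sum.inl i)) + x (Sum.inr ()) • redv p b = 0 ∧
        redv p c ⬝ᵥ (fun i => x (Sum.inl i)) + e * x (Sum.inr ()) = 0) := by
  rw [LinearMap.mem_ker, Matrix.mulVecLin_apply]
  have e1 : ∀ i : ι, (red p (bord A b c e) *ᵥ x) (Sum.inl i) =
      (red p A *ᵥ (fun i => x (Sum.inl i)) + x (Sum.inr ()) • redv p b) i := by
    intro i
    simp only [Matrix.mulVec, dotProduct, red, redv, Matrix.map_apply, Fintype.sum_sum_type,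
      bord_ll, bord_lr, Pi.add_apply, Pi.smul_apply, smul_eq_mul, Finset.univ_unique,
      Finset.sum_singleton]
    rw [mul_comm (x (Sum.inr ()))]
  have e2 : ∀ u : Unit, (red p (bord A b c e) *ᵥ x) (Sum.inr u) =
      redv p c ⬝ᵥ (fun i => x (Sum.inl i)) + e * x (Sum.inr ()) := by
    intro u
    simp only [Matrix.mulVec, dotProduct, red, redv, Matrix.map_apply, Fintype.sum_sum_type,
      bord_rl, bord_rr, Finset.univ_unique, Finset.sum_singleton]
  constructor
  · intro h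
    constructor
    · funext i
      rw [← e1, h]; rfl
    · rw [← e2 (), h]; rfl
  · rintro ⟨h1, h2⟩
    funext i
    rcases i with i | i
    · rw [e1, h1]; rfl
    · rw [e2, h2]; rfl

/-- The restriction of a vector on `ι ⊕ Unit` to `ι`, as a linear map. -/
def resl (p : ℕ) : (ι ⊕ Unit → ZMod p) →ₗ[ZMod p] (ι → ZMod p) where
  toFun x := fun i => x (Sum.inl i)
  map_add' _ _ := rfl
  map_smul' _ _ := rfl

/-- The linear form `x ↦ c ⬝ x`. -/
def dotl (p : ℕ) (c : ι → ZMod p) : (ι → ZMod p) →ₗ[ZMod p] ZMod p where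
  toFun x := c ⬝ᵥ x
  map_add' x y := dotProduct_add c x y
  map_smul' r x := dotProduct_smul r c x

/-- The column condition at `p`: some left kernel vector of `A` modulo `p` is not orthogonal to
`b`. -/
def ColGood (p : ℕ) (A : Matrix ι ι ℤ) (b : ι → ℤ) : Prop :=
  ∃ y : ι → ZMod p, y ᵥ* red p A = 0 ∧ y ⬝ᵥ redv p b ≠ 0

lemma nul_bord_lt (p : ℕ) [Fact p.Prime] (A : Matrix ι ι ℤ) (b c : ι → ℤ) (e : ℤ)
    (hb : ColGood p A b) (hc : ColGood p Aᵀ c) :
    nul p (bord A b c e) + 1 ≤ nul p A := by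
  obtain ⟨y, hy, hyb⟩ := hb
  obtain ⟨x0, hx0, hx0c⟩ := hc
  have hx0' : red p A *ᵥ x0 = 0 := by
    have : red p Aᵀ = (red p A)ᵀ := rfl
    rw [this, Matrix.vecMul_transpose] at hx0
    exact hx0
  have hx0c' : redv p c ⬝ᵥ x0 ≠ 0 := by rwa [dotProduct_comm]
  -- vectors in the kernel of the bordered matrix have last coordinate zero
  have ht : ∀ x ∈ LinearMap.ker (Matrix.mulVecLin (red p (bord A b c e))), x (Sum.inr ()) = 0 := by
    intro x hx
    obtain ⟨h1, -⟩ := (mem_ker_bord p A b c e x).1 hx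
    have h3 : y ⬝ᵥ (red p A *ᵥ (fun i => x (Sum.inl i)) + x (Sum.inr ()) • redv p b) = 0 := by
      rw [h1]; exact dotProduct_zero y
    rw [dotProduct_add, Matrix.dotProduct_mulVec, hy, zero_dotProduct, zero_add,
      dotProduct_smul, smul_eq_mul] at h3
    exact (mul_eq_zero.1 h3).resolve_right hyb
  set K := LinearMap.ker (Matrix.mulVecLin (red p (bord A b c e))) with hK
  let φ : K →ₗ[ZMod p] (ι → ZMod p) := (resl p).comp K.subtype
  have hφinj : Function.Injective φ := by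
    rw [← LinearMap.ker_eq_bot, LinearMap.ker_eq_bot']
    rintro ⟨x, hx⟩ hx0
    have hx1 : ∀ i, x (Sum.inl i) = 0 := fun i => congrFun hx0 i
    have hx2 := ht x hx
    apply Subtype.ext
    funext i
    rcases i with i | i
    · exact hx1 i
    · exact hx2
  have hrange : LinearMap.range φ ≤
      LinearMap.ker (Matrix.mulVecLin (red p A)) ⊓ LinearMap.ker (dotl p (redv p c)) := by
    rintro _ ⟨⟨x, hx⟩, rfl⟩
    obtain ⟨h1, h2⟩ := (mem_ker_bord p A b c e x).1 hx
    have h0 := ht x hx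
    rw [h0, zero_smul, add_zero] at h1
    rw [h0, mul_zero, add_zero] at h2
    exact ⟨h1, h2⟩
  have hlt : LinearMap.ker (Matrix.mulVecLin (red p A)) ⊓ LinearMap.ker (dotl p (redv p c)) <
      LinearMap.ker (Matrix.mulVecLin (red p A)) := by
    refine lt_of_le_of_ne inf_le_left ?_
    intro heq
    have : x0 ∈ LinearMap.ker (Matrix.mulVecLin (red p A)) ⊓
        LinearMap.ker (dotl p (redv p c)) := by
      rw [heq]; exact hx0'
    exact hx0c' this.2
  calc nul p (bord A b c e) + 1 = Module.finrank (ZMod p) (LinearMap.range φ) + 1 := by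
        rw [LinearMap.finrank_range_of_inj hφinj]; rfl
    _ ≤ Module.finrank (ZMod p) (LinearMap.ker (Matrix.mulVecLin (red p A)) ⊓
        LinearMap.ker (dotl p (redv p c)) : Submodule (ZMod p) (ι → ZMod p)) + 1 := by
        gcongr
        exact Submodule.finrank_mono hrange
    _ ≤ nul p A := Submodule.finrank_lt_finrank_of_lt hlt

lemma nul_bord_le (p : ℕ) [Fact p.Prime] (A : Matrix ι ι ℤ) (b c : ι → ℤ) (e : ℤ) :
    nul p (bord A b c e) ≤ nul p A + 1 := by
  set K := LinearMap.ker (Matrix.mulVecLin (red p (bord A b c e))) with hK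
  let lst : (ι ⊕ Unit → ZMod p) →ₗ[ZMod p] ZMod p := LinearMap.proj (Sum.inr ())
  let ψ : K →ₗ[ZMod p] (ZMod p) := lst.comp K.subtype
  have h1 := LinearMap.finrank_range_add_finrank_ker ψ
  have h2 : Module.finrank (ZMod p) (LinearMap.range ψ) ≤ 1 := by
    calc _ ≤ Module.finrank (ZMod p) (ZMod p) := Submodule.finrank_le _
      _ = 1 := Module.finrank_self _
  have h3 : Module.finrank (ZMod p) (LinearMap.ker ψ) ≤ nul p A := by
    let φ : LinearMap.ker ψ →ₗ[ZMod p] (ι → ZMod p) :=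
      ((resl p).comp K.subtype).comp (LinearMap.ker ψ).subtype
    have hφinj : Function.Injective φ := by
      rw [← LinearMap.ker_eq_bot, LinearMap.ker_eq_bot']
      rintro ⟨⟨x, hx⟩, hx'⟩ hx0
      have hx1 : ∀ i, x (Sum.inl i) = 0 := fun i => congrFun hx0 i
      have hx2 : x (Sum.inr ()) = 0 := hx'
      apply Subtype.ext
      apply Subtype.ext
      funext i
      rcases i with i | i
      · exact hx1 i
      · exact hx2
    have hrange : LinearMap.range φ ≤ LinearMap.ker (Matrix.mulVecLin (red p A)) := by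
      rintro _ ⟨⟨⟨x, hx⟩, hx'⟩, rfl⟩
      obtain ⟨h1, h2⟩ := (mem_ker_bord p A b c e x).1 hx
      have h0 : x (Sum.inr ()) = 0 := hx'
      rw [h0, zero_smul, add_zero] at h1
      exact h1
    rw [← LinearMap.finrank_range_of_inj hφinj]
    exact Submodule.finrank_mono hrange
  have h4 : nul p (bord A b c e) = Module.finrank (ZMod p) K := rfl
  omega

lemma red_det (p : ℕ) (A : Matrix ι ι ℤ) : (red p A).det = ((A.det : ℤ) : ZMod p) := by
  have := (Int.castRingHom (ZMod p)).map_det A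
  rw [eq_intCast] at this
  rw [this]
  rfl

lemma nul_eq_zero_iff (p : ℕ) [Fact p.Prime] (A : Matrix ι ι ℤ) :
    nul p A = 0 ↔ ¬ (p : ℤ) ∣ A.det := by
  have h1 : nul p A = 0 ↔ LinearMap.ker (Matrix.mulVecLin (red p A)) = ⊥ :=
    Submodule.finrank_eq_zero
  rw [h1, ← ZMod.intCast_zmod_eq_zero_iff_dvd, ← red_det, Matrix.ker_mulVecLin_eq_bot_iff]
  constructor
  · intro h h0
    obtain ⟨v, hv, hv0⟩ := Matrix.exists_mulVec_eq_zero_iff.2 h0
    exact hv (h v hv0)
  · intro h v hv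
    by_contra hne
    exact h (Matrix.exists_mulVec_eq_zero_iff.1 ⟨v, hne, hv⟩)

lemma nul_bord_le_max (p : ℕ) [Fact p.Prime] (A : Matrix ι ι ℤ) (b c : ι → ℤ) (e : ℤ) (r : ℕ)
    (hr : nul p A ≤ r + 1)
    (h : (r : ℕ) ≤ nul p A → ColGood p A b ∧ ColGood p Aᵀ c) :
    nul p (bord A b c e) ≤ r := by
  by_cases h1 : r ≤ nul p A
  · obtain ⟨hb, hc⟩ := h h1
    have := nul_bord_lt p A b c e hb hc
    omega
  · have := nul_bord_le p A b c e
    omega

end Pool.Agent.DetSpec
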