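import Mathlib
import Pool.Agent.DetSpec.Ker

set_option autoImplicit false
set_option linter.unusedSectionVars false

open Matrix

namespace Pool.Agent.DetSpec

variable {ι : Type} [Fintype ι] [DecidableEq ι]

/-- All entries are `0` or `1`. -/
def IsBin {κ : Type} (A : Matrix ι κ ℤ) : Prop := ∀ i j, A i j = 0 ∨ A i j = 1

lemma IsBin.nonneg {κ : Type} {A : Matrix ι κ ℤ} (h : IsBin A) (i : ι) (j : κ) : 0 ≤ A i j := by
  rcases h i j with h | h <;> omega

lemma IsBin.le_one {κ : Type} {A : Matrix ι κ ℤ} (h : IsBin A) (i : ι) (j : κ) : A i j ≤ 1 := by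
  rcases h i j with h | h <;> omega

lemma IsBin.transpose {A : Matrix ι ι ℤ} (h : IsBin A) : IsBin Aᵀ := fun i j => h j i

lemma redv_add (p : ℕ) (b b' : ι → ℤ) : redv p (b + b') = redv p b + redv p b' := by
  funext i; simp [redv]

lemma redv_sub (p : ℕ) (b b' : ι → ℤ) : redv p (b - b') = redv p b - redv p b' := by
  funext i; simp [redv]

lemma redv_mulVec (p : ℕ) (A : Matrix ι ι ℤ) (z : ι → ℤ) :
    redv p (A *ᵥ z) = red p A *ᵥ redv p z := by
  funext i
  simp [redv, red, Matrix.mulVec, dotProduct]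

/-- Column goodness only depends on `b` modulo the column lattice of `A`. -/
lemma ColGood.sub_mulVec {p : ℕ} {A : Matrix ι ι ℤ} {b : ι → ℤ} (h : ColGood p A b)
    (z : ι → ℤ) : ColGood p A (b - A *ᵥ z) := by
  obtain ⟨y, hy, hyb⟩ := h
  refine ⟨y, hy, ?_⟩
  rw [redv_sub, redv_mulVec, dotProduct_sub, Matrix.dotProduct_mulVec, hy, zero_dotProduct,
    sub_zero]
  exact hyb

lemma exists_colGood_aux (A : Matrix ι ι ℤ) (S : Finset ℕ)
    (hS : ∀ p ∈ S, p.Prime ∧ (p : ℤ) ∣ A.det) :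
    ∃ b : ι → ℤ, ∀ p ∈ S, ColGood p A b := by
  induction S using Finset.induction_on with
  | empty => exact ⟨0, by simp⟩
  | insert q S hq ih =>
    obtain ⟨b, hb⟩ := ih (fun p hp => hS p (Finset.mem_insert_of_mem hp))
    obtain ⟨hqp, hqd⟩ := hS q (Finset.mem_insert_self q S)
    have : Fact q.Prime := ⟨hqp⟩
    by_cases hgood : ColGood q A b
    · refine ⟨b, fun p hp => ?_⟩
      rcases Finset.mem_insert.1 hp with rfl | hp
      · exact hgood
      · exact hb p hp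
    · have hdet : (red q A).det = 0 := by
        rw [red_det]; exact (ZMod.intCast_zmod_eq_zero_iff_dvd _ _).2 hqd
      obtain ⟨y, hy0, hy⟩ := Matrix.exists_vecMul_eq_zero_iff.2 hdet
      obtain ⟨i, hi⟩ : ∃ i, y i ≠ 0 := by
        by_contra hcon
        push Not at hcon
        exact hy0 (funext hcon)
      have hyb : y ⬝ᵥ redv q b = 0 := by
        by_contra hne
        exact hgood ⟨y, hy, hne⟩
      set P : ℤ := ∏ p ∈ S, (p : ℤ) with hP
      refine ⟨b + Pi.single i P, fun p hp => ?_⟩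
      rcases Finset.mem_insert.1 hp with rfl | hpS
      · refine ⟨y, hy, ?_⟩
        rw [redv_add, dotProduct_add, hyb, zero_add]
        have : redv p (Pi.single i P) = Pi.single i ((P : ℤ) : ZMod p) := by
          funext j
          by_cases hj : j = i
          · subst hj; simp [redv]
          · simp [redv, hj]
        rw [this, dotProduct_single]
        refine mul_ne_zero hi ?_
        rw [Ne, ZMod.intCast_zmod_eq_zero_iff_dvd, hP]
        intro hdvd
        have hpp : Prime (p : ℤ) := Nat.prime_iff_prime_int.1 hqp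
        obtain ⟨a, haS, hda⟩ := (hpp.dvd_finsetProd_iff _).1 hdvd
        have hap := (hS a (Finset.mem_insert_of_mem haS)).1
        have : p = a := (Nat.prime_dvd_prime_iff_eq hqp hap).1 (Int.natCast_dvd_natCast.1 hda)
        exact hq (this ▸ haS)
      · obtain ⟨y', hy', hyb'⟩ := hb p hpS
        refine ⟨y', hy', ?_⟩
        have : redv p (b + Pi.single i P) = redv p b := by
          rw [redv_add]
          have : redv p (Pi.single i P) = 0 := by
            have h0 : ((P : ℤ) : ZMod p) = 0 :=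
              (ZMod.intCast_zmod_eq_zero_iff_dvd _ _).2 (Finset.dvd_prod_of_mem _ hpS)
            funext j
            by_cases hj : j = i
            · subst hj; simp [redv, h0]
            · simp [redv, hj]
          rw [this, add_zero]
        rw [this]
        exact hyb'

lemma exists_colGood (A : Matrix ι ι ℤ) (hA : A.det ≠ 0) :
    ∃ b : ι → ℤ, ∀ p : ℕ, p.Prime → (p : ℤ) ∣ A.det → ColGood p A b := by
  obtain ⟨b, hb⟩ := exists_colGood_aux A A.det.natAbs.primeFactors (by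
    intro p hp
    exact ⟨Nat.prime_of_mem_primeFactors hp,
      Int.natCast_dvd.2 (Nat.dvd_of_mem_primeFactors hp)⟩)
  refine ⟨b, fun p hp hd => hb p ?_⟩
  exact Nat.mem_primeFactors.2 ⟨hp, Int.natCast_dvd.1 hd, by simpa using hA⟩

/-- Rational version of an integer matrix. -/
def ratM (A : Matrix ι ι ℤ) : Matrix ι ι ℚ := A.map (fun z : ℤ => (z : ℚ))

/-- Rational version of an integer vector. -/
def ratV (b : ι → ℤ) : ι → ℚ := fun i => (b i : ℚ)

lemma ratM_det (A : Matrix ι ι ℤ) : (ratM A).det = (A.det : ℚ) := by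
  have := (Int.castRingHom ℚ).map_det A
  rw [eq_intCast] at this
  rw [this]
  rfl

lemma ratM_mulVec (A : Matrix ι ι ℤ) (z : ι → ℤ) : ratM A *ᵥ ratV z = ratV (A *ᵥ z) := by
  funext i
  simp [ratM, ratV, Matrix.mulVec, dotProduct]

lemma ratM_vecMul (A : Matrix ι ι ℤ) (z : ι → ℤ) : ratV z ᵥ* ratM A = ratV (z ᵥ* A) := by
  funext i
  simp [ratM, ratV, Matrix.vecMul, dotProduct]

/-- Reduction of a vector modulo the column lattice. -/
lemma exists_reduce (A : Matrix ι ι ℤ) (hA : A.det ≠ 0) (b : ι → ℤ) :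
    ∃ (z : ι → ℤ) (τ : ι → ℚ), (∀ i, 0 ≤ τ i ∧ τ i < 1) ∧
      ratV (b - A *ᵥ z) = ratM A *ᵥ τ := by
  have hu : IsUnit (ratM A).det := by
    rw [ratM_det]
    exact (Int.cast_ne_zero.2 hA).isUnit
  set w : ι → ℚ := (ratM A)⁻¹ *ᵥ ratV b with hw
  refine ⟨fun i => ⌊w i⌋, fun i => Int.fract (w i), fun i => ⟨Int.fract_nonneg _,
    Int.fract_lt_one _⟩, ?_⟩
  have h1 : ratM A *ᵥ w = ratV b := by
    rw [hw, Matrix.mulVec_mulVec, Matrix.mul_nonsing_inv _ hu, Matrix.one_mulVec]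
  have h2 : (fun i => Int.fract (w i)) = w - ratV (fun i => ⌊w i⌋) := by
    funext i
    simp only [ratV, Pi.sub_apply]
    exact (Int.self_sub_floor _).symm
  rw [h2, Matrix.mulVec_sub, h1, ratM_mulVec]
  funext i
  simp [ratV]

lemma bin_mulVec_bounds (A : Matrix ι ι ℤ) (hA : IsBin A) (τ : ι → ℚ)
    (hτ : ∀ i, 0 ≤ τ i ∧ τ i < 1) (i : ι) :
    0 ≤ (ratM A *ᵥ τ) i ∧ (ratM A *ᵥ τ) i ≤ Fintype.card ι := by
  have hentry : ∀ j, 0 ≤ ratM A i j * τ j ∧ ratM A i j * τ j ≤ 1 := by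
    intro j
    rcases hA i j with h | h
    · simp [ratM, h]
    · simp only [ratM, Matrix.map_apply, h, Int.cast_one, one_mul]
      exact ⟨(hτ j).1, (hτ j).2.le⟩
  constructor
  · exact Finset.sum_nonneg (fun j _ => (hentry j).1)
  · calc (ratM A *ᵥ τ) i = ∑ j, ratM A i j * τ j := rfl
      _ ≤ ∑ _j : ι, (1 : ℚ) := Finset.sum_le_sum (fun j _ => (hentry j).2)
      _ = Fintype.card ι := by simp

/-- The linear form giving the determinant of a bordered matrix. -/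
noncomputable def phi (A : Matrix ι ι ℤ) (b c : ι → ℤ) : ℚ :=
  (ratV c ᵥ* (ratM A)⁻¹) ⬝ᵥ ratV b

lemma det_bord (A : Matrix ι ι ℤ) (hA : A.det ≠ 0) (b c : ι → ℤ) (e : ℤ) :
    ((bord A b c e).det : ℚ) = A.det * (e - phi A b c) := by
  have hu : IsUnit (ratM A).det := by
    rw [ratM_det]
    exact (Int.cast_ne_zero.2 hA).isUnit
  have : Invertible (ratM A) := Matrix.invertibleOfIsUnitDet _ hu
  have h1 : ((bord A b c e).det : ℚ) = (ratM (bord A b c e)).det := (ratM_det _).symm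
  have h2 : ratM (bord A b c e) = fromBlocks (ratM A) (Matrix.of fun i (_ : Unit) => (b i : ℚ))
      (Matrix.of fun (_ : Unit) j => (c j : ℚ)) (Matrix.of fun (_ _ : Unit) => (e : ℚ)) := by
    ext i j
    rcases i with i | i <;> rcases j with j | j <;> rfl
  rw [h1, h2, Matrix.det_fromBlocks₁₁, ratM_det]
  congr 1
  rw [Matrix.det_unique, Matrix.sub_apply, Matrix.invOf_eq_nonsing_inv]
  rfl

lemma phi_smul (A : Matrix ι ι ℤ) (b c : ι → ℤ) (l : ℤ) :
    phi A b (l • c) = l * phi A b c := by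
  have : ratV (l • c) = (l : ℚ) • ratV c := by funext i; simp [ratV]
  rw [phi, this, Matrix.smul_vecMul, smul_dotProduct, smul_eq_mul, phi]

lemma phi_sub_vecMul (A : Matrix ι ι ℤ) (hA : A.det ≠ 0) (b c z : ι → ℤ) :
    phi A b (c - z ᵥ* A) = phi A b c - ((z ⬝ᵥ b : ℤ) : ℚ) := by
  have hu : IsUnit (ratM A).det := by
    rw [ratM_det]
    exact (Int.cast_ne_zero.2 hA).isUnit
  have : ratV (c - z ᵥ* A) = ratV c - ratV z ᵥ* ratM A := by
    rw [ratM_vecMul]; funext i; simp [ratV]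
  rw [phi, this, Matrix.sub_vecMul, Matrix.vecMul_vecMul, Matrix.mul_nonsing_inv _ hu,
    Matrix.vecMul_one, sub_dotProduct, phi]
  congr 1
  simp [ratV, dotProduct]

lemma phi_of_eq (A : Matrix ι ι ℤ) (hA : A.det ≠ 0) (b c : ι → ℤ) (τ : ι → ℚ)
    (h : ratV c = τ ᵥ* ratM A) : phi A b c = τ ⬝ᵥ ratV b := by
  have hu : IsUnit (ratM A).det := by
    rw [ratM_det]
    exact (Int.cast_ne_zero.2 hA).isUnit
  rw [phi, h, Matrix.vecMul_vecMul, Matrix.mul_nonsing_inv _ hu, Matrix.vecMul_one]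

/-- Bounds on the entries of a border. -/
structure BordBd (ι : Type) [Fintype ι] (b c : ι → ℤ) (e : ℤ) : Prop where
  b0 : ∀ i, 0 ≤ b i
  b1 : ∀ i, b i ≤ Fintype.card ι
  c0 : ∀ i, 0 ≤ c i
  c1 : ∀ i, c i ≤ Fintype.card ι
  e0 : 0 ≤ e
  e1 : e ≤ (Fintype.card ι : ℤ) ^ 2 + 1

lemma dot_bounds (τ : ι → ℚ) (hτ : ∀ i, 0 ≤ τ i ∧ τ i < 1) (b : ι → ℤ)
    (b0 : ∀ i, 0 ≤ b i) (b1 : ∀ i, b i ≤ Fintype.card ι) :
    0 ≤ τ ⬝ᵥ ratV b ∧ τ ⬝ᵥ ratV b ≤ (Fintype.card ι : ℚ) ^ 2 := by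
  have h0 : ∀ i, 0 ≤ τ i * ratV b i ∧ τ i * ratV b i ≤ Fintype.card ι := by
    intro i
    have hb0 : (0 : ℚ) ≤ ratV b i := by simp only [ratV]; exact_mod_cast b0 i
    have hb1 : ratV b i ≤ Fintype.card ι := by simp only [ratV]; exact_mod_cast b1 i
    constructor
    · exact mul_nonneg (hτ i).1 hb0
    · calc τ i * ratV b i ≤ 1 * ratV b i := by
            exact mul_le_mul_of_nonneg_right (hτ i).2.le hb0
        _ ≤ _ := by simpa using hb1
  constructor
  · exact Finset.sum_nonneg (fun i _ => (h0 i).1)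
  · calc τ ⬝ᵥ ratV b = ∑ i, τ i * ratV b i := rfl
      _ ≤ ∑ _i : ι, (Fintype.card ι : ℚ) := Finset.sum_le_sum (fun i _ => (h0 i).2)
      _ = (Fintype.card ι : ℚ) ^ 2 := by simp [sq]

lemma exists_colGood_bdd (A : Matrix ι ι ℤ) (hbin : IsBin A) (hA : A.det ≠ 0) :
    ∃ b : ι → ℤ, (∀ i, 0 ≤ b i) ∧ (∀ i, b i ≤ Fintype.card ι) ∧
      ∀ p : ℕ, p.Prime → (p : ℤ) ∣ A.det → ColGood p A b := by
  obtain ⟨b, hb⟩ := exists_colGood A hA
  obtain ⟨z, τ, hτ, h⟩ := exists_reduce A hA b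
  refine ⟨b - A *ᵥ z, ?_, ?_, fun p hp hd => (hb p hp hd).sub_mulVec z⟩
  · intro i
    have := (bin_mulVec_bounds A hbin τ hτ i).1
    rw [← h] at this
    simp only [ratV] at this
    exact_mod_cast this
  · intro i
    have := (bin_mulVec_bounds A hbin τ hτ i).2
    rw [← h] at this
    simp only [ratV] at this
    exact_mod_cast this

/-- Border vectors together with the fractional vector of the row. -/
lemma exists_row_reduce (A : Matrix ι ι ℤ) (hbin : IsBin A) (hA : A.det ≠ 0) (c : ι → ℤ) :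
    ∃ (z : ι → ℤ) (τ : ι → ℚ), (∀ i, 0 ≤ τ i ∧ τ i < 1) ∧
      ratV (c - z ᵥ* A) = τ ᵥ* ratM A ∧ (∀ i, 0 ≤ (c - z ᵥ* A) i) ∧
      (∀ i, (c - z ᵥ* A) i ≤ Fintype.card ι) := by
  obtain ⟨z, τ, hτ, h⟩ := exists_reduce Aᵀ (by rwa [Matrix.det_transpose]) c
  have h1 : Aᵀ *ᵥ z = z ᵥ* A := Matrix.mulVec_transpose A z
  have h2 : ratM Aᵀ *ᵥ τ = τ ᵥ* ratM A := by
    have : ratM Aᵀ = (ratM A)ᵀ := rfl
    rw [this, Matrix.mulVec_transpose]
  refine ⟨z, τ, hτ, by rw [← h1, h, h2], ?_, ?_⟩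
  · intro i
    have := (bin_mulVec_bounds Aᵀ hbin.transpose τ hτ i).1
    rw [← h, h1] at this
    simp only [ratV] at this
    exact_mod_cast this
  · intro i
    have := (bin_mulVec_bounds Aᵀ hbin.transpose τ hτ i).2
    rw [← h, h1] at this
    simp only [ratV] at this
    exact_mod_cast this

/-- Reduction step: the kernel dimensions drop and the determinant does not get smaller. -/
lemma step_reduce (A : Matrix ι ι ℤ) (hbin : IsBin A) (hA : A.det ≠ 0) (r : ℕ) (hr : 1 ≤ r)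
    (hn : ∀ (p : ℕ) [Fact p.Prime], nul p A ≤ r + 1) :
    ∃ (b c : ι → ℤ) (e : ℤ), BordBd ι b c e ∧
      |A.det| ≤ |(bord A b c e).det| ∧ ∀ (p : ℕ) [Fact p.Prime], nul p (bord A b c e) ≤ r := by
  obtain ⟨b, b0, b1, hb⟩ := exists_colGood_bdd A hbin hA
  obtain ⟨c', hc'⟩ := exists_colGood Aᵀ (by rwa [Matrix.det_transpose])
  obtain ⟨z, τ, hτ, hcτ, c0, c1⟩ := exists_row_reduce A hbin hA c'
  set c := c' - z ᵥ* A with hc
  have hcgood : ∀ p : ℕ, p.Prime → (p : ℤ) ∣ A.det → ColGood p Aᵀ c := by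
    intro p hp hd
    have := (hc' p hp (by rwa [Matrix.det_transpose])).sub_mulVec z
    rwa [Matrix.mulVec_transpose] at this
  have hphi := phi_of_eq A hA b c τ hcτ
  obtain ⟨d0, d1⟩ := dot_bounds τ hτ b b0 b1
  rw [← hphi] at d0 d1
  refine ⟨b, c, (Fintype.card ι : ℤ) ^ 2 + 1, ⟨b0, b1, c0, c1, by positivity, le_refl _⟩, ?_, ?_⟩
  · have hdet := det_bord A hA b c ((Fintype.card ι : ℤ) ^ 2 + 1)
    have h1 : (1 : ℚ) ≤ (((Fintype.card ι : ℤ) ^ 2 + 1 : ℤ) : ℚ) - phi A b c := by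
      push_cast
      linarith
    have : |(A.det : ℚ)| ≤ |((bord A b c ((Fintype.card ι : ℤ) ^ 2 + 1)).det : ℚ)| := by
      rw [hdet, abs_mul]
      have h2 : (1 : ℚ) ≤ |(((Fintype.card ι : ℤ) ^ 2 + 1 : ℤ) : ℚ) - phi A b c| :=
        h1.trans (le_abs_self _)
      nlinarith [abs_nonneg (A.det : ℚ)]
    exact_mod_cast this
  · intro p hp
    by_cases hd : (p : ℤ) ∣ A.det
    · have := nul_bord_lt p A b c ((Fintype.card ι : ℤ) ^ 2 + 1) (hb p hp.out hd)
        (hcgood p hp.out hd)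
      have := hn p
      omega
    · have h0 := (nul_eq_zero_iff p A).2 hd
      have := nul_bord_le p A b c ((Fintype.card ι : ℤ) ^ 2 + 1)
      omega

/-- Final step: every integer between `0` and `det A` is reached. -/
lemma step_exact (A : Matrix ι ι ℤ) (hbin : IsBin A) (hA : A.det ≠ 0)
    (hn : ∀ (p : ℕ) [Fact p.Prime], nul p A ≤ 1) (x : ℤ)
    (hx0 : 0 ≤ (x : ℚ) / A.det) (hx1 : (x : ℚ) / A.det ≤ 1) :
    ∃ (b c : ι → ℤ) (e : ℤ), BordBd ι b c e ∧ (bord A b c e).det = x := by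
  obtain ⟨b, b0, b1, hb⟩ := exists_colGood_bdd A hbin hA
  obtain ⟨c', hc'⟩ := exists_colGood Aᵀ (by rwa [Matrix.det_transpose])
  set g : ℤ := (bord A b c' 0).det with hg
  have hcop : IsCoprime g A.det := by
    rw [Int.isCoprime_iff_gcd_eq_one]
    by_contra hne
    obtain ⟨p, hp, hpd⟩ := Nat.exists_prime_and_dvd hne
    have : Fact p.Prime := ⟨hp⟩
    have h1 : (p : ℤ) ∣ g := (Int.natCast_dvd_natCast.2 hpd).trans (Int.gcd_dvd_left ..)
    have h2 : (p : ℤ) ∣ A.det := (Int.natCast_dvd_natCast.2 hpd).trans (Int.gcd_dvd_right ..)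
    have h3 := nul_bord_lt p A b c' 0 (hb p hp h2) (hc' p hp (by rwa [Matrix.det_transpose]))
    have h4 := hn p
    have h5 : nul p (bord A b c' 0) = 0 := by omega
    exact (nul_eq_zero_iff p _).1 h5 h1
  obtain ⟨u, v, huv⟩ := hcop
  -- `u g + v D = 1`
  set l : ℤ := x * u with hl
  set e' : ℤ := x * v with he'
  obtain ⟨z, τ, hτ, hcτ, c0, c1⟩ := exists_row_reduce A hbin hA (l • c')
  set c := l • c' - z ᵥ* A with hc
  have hphi := phi_of_eq A hA b c τ hcτ
  obtain ⟨d0, d1⟩ := dot_bounds τ hτ b b0 b1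
  rw [← hphi] at d0 d1
  have hDq : (A.det : ℚ) ≠ 0 := by exact_mod_cast hA
  set e : ℤ := e' - z ⬝ᵥ b with he
  have hgq : (g : ℚ) = - (A.det * phi A b c') := by
    rw [hg, det_bord A hA]; push_cast; ring
  have hdet : ((bord A b c e).det : ℚ) = x := by
    rw [det_bord A hA, hc, phi_sub_vecMul A hA, phi_smul, he]
    have h7 : (u : ℚ) * g + v * A.det = 1 := by exact_mod_cast huv
    have hl' : (l : ℚ) = x * u := by rw [hl, Int.cast_mul]
    have he'' : (e' : ℚ) = x * v := by rw [he', Int.cast_mul]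
    rw [hgq] at h7
    rw [Int.cast_sub, hl', he'']
    linear_combination (x : ℚ) * h7
  have hex : (e : ℚ) = (x : ℚ) / A.det + phi A b c := by
    have h1 := hdet
    rw [det_bord A hA] at h1
    field_simp
    linear_combination h1
  refine ⟨b, c, e, ⟨b0, b1, c0, c1, ?_, ?_⟩, by exact_mod_cast hdet⟩
  · have : (0 : ℚ) ≤ e := by rw [hex]; linarith
    exact_mod_cast this
  · have : (e : ℚ) ≤ (Fintype.card ι : ℚ) ^ 2 + 1 := by rw [hex]; linarith
    exact_mod_cast this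

end Pool.Agent.DetSpec
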