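import Mathlib
import Pool.Agent.DetSpec.Choose

set_option autoImplicit false
set_option linter.unusedSectionVars false

open Matrix

namespace Pool.Agent.DetSpec

variable {κ : Type} [Fintype κ] [DecidableEq κ]

/-- The doubling gadget: the row `i0` of `A`, equal to `u + 2 r`, is split into binary pieces. -/
def dbl (A : Matrix κ κ ℤ) (i0 : κ) (u r : κ → ℤ) : Matrix (κ ⊕ Fin 3) (κ ⊕ Fin 3) ℤ :=
  fromBlocks (Matrix.of fun i j => if i = i0 then u j else A i j)
    (Matrix.of fun i k => if i = i0 then (![1, 1, 0] : Fin 3 → ℤ) k else 0)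
    (Matrix.of fun k j => if k = 2 then r j else 0)
    !![1, 0, 1; 0, 1, 1; 0, 0, 1]

lemma dbl_ll (A : Matrix κ κ ℤ) (i0 : κ) (u r : κ → ℤ) (i j : κ) :
    dbl A i0 u r (Sum.inl i) (Sum.inl j) = if i = i0 then u j else A i j := rfl
lemma dbl_lr (A : Matrix κ κ ℤ) (i0 : κ) (u r : κ → ℤ) (i : κ) (k : Fin 3) :
    dbl A i0 u r (Sum.inl i) (Sum.inr k) = if i = i0 then (![1, 1, 0] : Fin 3 → ℤ) k else 0 := rfl
lemma dbl_rl (A : Matrix κ κ ℤ) (i0 : κ) (u r : κ → ℤ) (k : Fin 3) (j : κ) :
    dbl A i0 u r (Sum.inr k) (Sum.inl j) = if k = 2 then r j else 0 := rfl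
lemma dbl_rr (A : Matrix κ κ ℤ) (i0 : κ) (u r : κ → ℤ) (k l : Fin 3) :
    dbl A i0 u r (Sum.inr k) (Sum.inr l) = (!![1, 0, 1; 0, 1, 1; 0, 0, 1] : Matrix _ _ ℤ) k l := rfl

lemma dbl_det (A : Matrix κ κ ℤ) (i0 : κ) (u r : κ → ℤ) (h : ∀ j, A i0 j = u j + 2 * r j) :
    (dbl A i0 u r).det = A.det := by
  set L : Matrix (κ ⊕ Fin 3) (κ ⊕ Fin 3) ℤ :=
    fromBlocks 1 (Matrix.of fun i k => if i = i0 then (![-1, -1, 2] : Fin 3 → ℤ) k else 0) 0 1
    with hL
  have hLdet : L.det = 1 := by
    rw [hL, Matrix.det_fromBlocks_zero₂₁]; simp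
  have hmul : L * dbl A i0 u r = fromBlocks A 0
      (Matrix.of fun k j => if k = 2 then r j else 0) !![1, 0, 1; 0, 1, 1; 0, 0, 1] := by
    rw [hL, dbl, Matrix.fromBlocks_multiply]
    congr 1
    · ext i j
      by_cases hi : i = i0
      · subst hi
        simp [Matrix.mul_apply, Fin.sum_univ_three, h, Matrix.add_apply]
      · simp [Matrix.mul_apply, hi]
    · ext i k
      by_cases hi : i = i0
      · subst hi
        fin_cases k <;> simp [Matrix.mul_apply, Fin.sum_univ_three]
      · simp [Matrix.mul_apply, hi]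
    · simp
    · simp
  have hG : (!![1, 0, 1; 0, 1, 1; 0, 0, 1] : Matrix (Fin 3) (Fin 3) ℤ).det = 1 := by
    decide
  have := congrArg Matrix.det hmul
  rw [Matrix.det_mul, hLdet, one_mul, Matrix.det_fromBlocks_zero₁₂, hG, mul_one] at this
  exact this

lemma dbl_nul (p : ℕ) [Fact p.Prime] (A : Matrix κ κ ℤ) (i0 : κ) (u r : κ → ℤ)
    (h : ∀ j, A i0 j = u j + 2 * r j) : nul p (dbl A i0 u r) ≤ nul p A := by
  set K := LinearMap.ker (Matrix.mulVecLin (red p (dbl A i0 u r))) with hK
  let res : (κ ⊕ Fin 3 → ZMod p) →ₗ[ZMod p] (κ → ZMod p) :=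
    { toFun := fun x i => x (Sum.inl i)
      map_add' := fun _ _ => rfl
      map_smul' := fun _ _ => rfl }
  let φ : K →ₗ[ZMod p] (κ → ZMod p) := res.comp K.subtype
  -- equations satisfied by kernel vectors
  have key : ∀ x ∈ K, (∀ i, (∑ j, ((dbl A i0 u r (Sum.inl i) (Sum.inl j) : ℤ) : ZMod p) *
        x (Sum.inl j)) + ∑ k, ((dbl A i0 u r (Sum.inl i) (Sum.inr k) : ℤ) : ZMod p) *
        x (Sum.inr k) = 0) ∧
      (∀ k, (∑ j, ((dbl A i0 u r (Sum.inr k) (Sum.inl j) : ℤ) : ZMod p) *
        x (Sum.inl j)) + ∑ l, ((dbl A i0 u r (Sum.inr k) (Sum.inr l) : ℤ) : ZMod p) *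
        x (Sum.inr l) = 0) := by
    intro x hx
    have hx' : red p (dbl A i0 u r) *ᵥ x = 0 := hx
    constructor
    · intro i
      have := congrFun hx' (Sum.inl i)
      rw [Matrix.mulVec, dotProduct, Fintype.sum_sum_type] at this
      exact this
    · intro k
      have := congrFun hx' (Sum.inr k)
      rw [Matrix.mulVec, dotProduct, Fintype.sum_sum_type] at this
      exact this
  have y0 : ∀ x ∈ K, x (Sum.inr 0) + x (Sum.inr 2) = 0 := by
    intro x hx
    have := (key x hx).2 0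
    simpa [dbl_rl, dbl_rr, Fin.sum_univ_three] using this
  have y1 : ∀ x ∈ K, x (Sum.inr 1) + x (Sum.inr 2) = 0 := by
    intro x hx
    have := (key x hx).2 1
    simpa [dbl_rl, dbl_rr, Fin.sum_univ_three] using this
  have y2 : ∀ x ∈ K, (∑ j, ((r j : ℤ) : ZMod p) * x (Sum.inl j)) + x (Sum.inr 2) = 0 := by
    intro x hx
    have := (key x hx).2 2
    simpa [dbl_rl, dbl_rr, Fin.sum_univ_three] using this
  have hφinj : Function.Injective φ := by
    rw [← LinearMap.ker_eq_bot, LinearMap.ker_eq_bot']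
    rintro ⟨x, hx⟩ hx0
    have hx1 : ∀ i, x (Sum.inl i) = 0 := fun i => congrFun hx0 i
    have h2 := y2 x hx
    simp only [hx1, mul_zero, Finset.sum_const_zero, zero_add] at h2
    have h0 := y0 x hx
    have h1 := y1 x hx
    rw [h2, add_zero] at h0 h1
    apply Subtype.ext
    funext i
    rcases i with i | i
    · exact hx1 i
    · fin_cases i
      · exact h0
      · exact h1
      · exact h2
  have hrange : LinearMap.range φ ≤ LinearMap.ker (Matrix.mulVecLin (red p A)) := by
    rintro _ ⟨⟨x, hx⟩, rfl⟩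
    change red p A *ᵥ (fun i => x (Sum.inl i)) = 0
    funext i
    change ∑ j, ((A i j : ℤ) : ZMod p) * x (Sum.inl j) = 0
    have h3 := (key x hx).1 i
    by_cases hi : i = i0
    · subst hi
      have e : ∑ j, ((A i j : ℤ) : ZMod p) * x (Sum.inl j) =
          (∑ j, ((u j : ℤ) : ZMod p) * x (Sum.inl j)) +
            2 * ∑ j, ((r j : ℤ) : ZMod p) * x (Sum.inl j) := by
        rw [Finset.mul_sum, ← Finset.sum_add_distrib]
        refine Finset.sum_congr rfl (fun j _ => ?_)
        rw [h j]; push_cast; ring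
      simp only [dbl_ll, dbl_lr, if_true, Fin.sum_univ_three] at h3
      have h4 : (∑ j, ((u j : ℤ) : ZMod p) * x (Sum.inl j)) +
          (x (Sum.inr 0) + x (Sum.inr 1)) = 0 := by simpa using h3
      rw [e]
      linear_combination h4 - y0 x hx - y1 x hx + 2 * y2 x hx
    · simpa [dbl_ll, dbl_lr, hi] using h3
  calc nul p (dbl A i0 u r) = Module.finrank (ZMod p) (LinearMap.range φ) := by
        rw [LinearMap.finrank_range_of_inj hφinj]; rfl
    _ ≤ nul p A := Submodule.finrank_mono hrange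

/-- Reindexing. -/
lemma nul_reindex {κ' : Type} [Fintype κ'] [DecidableEq κ'] (p : ℕ) [Fact p.Prime] (e : κ ≃ κ')
    (A : Matrix κ κ ℤ) : nul p (A.reindex e e) ≤ nul p A := by
  set K := LinearMap.ker (Matrix.mulVecLin (red p (A.reindex e e))) with hK
  let res : (κ' → ZMod p) →ₗ[ZMod p] (κ → ZMod p) :=
    { toFun := fun x i => x (e i)
      map_add' := fun _ _ => rfl
      map_smul' := fun _ _ => rfl }
  let φ : K →ₗ[ZMod p] (κ → ZMod p) := res.comp K.subtype
  have hφinj : Function.Injective φ := by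
    rw [← LinearMap.ker_eq_bot, LinearMap.ker_eq_bot']
    rintro ⟨x, hx⟩ hx0
    apply Subtype.ext
    funext i
    have := congrFun hx0 (e.symm i)
    change x (e (e.symm i)) = 0 at this
    rw [e.apply_symm_apply] at this
    exact this
  have hrange : LinearMap.range φ ≤ LinearMap.ker (Matrix.mulVecLin (red p A)) := by
    rintro _ ⟨⟨x, hx⟩, rfl⟩
    change red p A *ᵥ (fun i => x (e i)) = 0
    have hx' : red p (A.reindex e e) *ᵥ x = 0 := hx
    funext i
    have h1 := congrFun hx' (e i)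
    change ∑ j, ((A.reindex e e (e i) j : ℤ) : ZMod p) * x j = 0 at h1
    change ∑ j, ((A i j : ℤ) : ZMod p) * x (e j) = 0
    rw [← h1, ← e.sum_comp]
    simp
  calc nul p (A.reindex e e) = Module.finrank (ZMod p) (LinearMap.range φ) := by
        rw [LinearMap.finrank_range_of_inj hφinj]; rfl
    _ ≤ nul p A := Submodule.finrank_mono hrange

/-- Row expansion into binary digits. -/
lemma row_expand (m : ℕ) : ∀ {κ : Type} [Fintype κ] [DecidableEq κ] (A : Matrix κ κ ℤ) (i0 : κ),
    (∀ j, 0 ≤ A i0 j ∧ A i0 j < 2 ^ (m + 1)) →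
    ∃ (τ : Type) (_ : Fintype τ) (_ : DecidableEq τ), Fintype.card τ = 3 * m ∧
      ∃ B : Matrix (κ ⊕ τ) (κ ⊕ τ) ℤ, B.det = A.det ∧
        (∀ (p : ℕ) [Fact p.Prime], nul p B ≤ nul p A) ∧
        (∀ i j, i ≠ i0 → B (Sum.inl i) (Sum.inl j) = A i j) ∧
        (∀ j', B (Sum.inl i0) j' = 0 ∨ B (Sum.inl i0) j' = 1) ∧
        (∀ t j', B (Sum.inr t) j' = 0 ∨ B (Sum.inr t) j' = 1) ∧
        (∀ i t, B (Sum.inl i) (Sum.inr t) = 0 ∨ B (Sum.inl i) (Sum.inr t) = 1) := by
  induction m with
  | zero =>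
    intro κ _ _ A i0 hrow
    refine ⟨Empty, inferInstance, inferInstance, rfl, A.reindex (Equiv.sumEmpty κ Empty).symm
      (Equiv.sumEmpty κ Empty).symm, Matrix.det_reindex_self _ _, ?_, ?_, ?_, ?_, ?_⟩
    · intro p _
      exact nul_reindex p _ A
    · intro i j _
      rfl
    · intro j'
      rcases j' with j' | j'
      · have := hrow j'
        change A i0 j' = 0 ∨ A i0 j' = 1
        norm_num at this
        omega
      · exact j'.elim
    · intro t
      exact t.elim
    · intro i t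
      exact t.elim
  | succ m ih =>
    intro κ _ _ A i0 hrow
    set u : κ → ℤ := fun j => A i0 j % 2 with hu
    set r : κ → ℤ := fun j => A i0 j / 2 with hr
    have hAur : ∀ j, A i0 j = u j + 2 * r j := fun j => by
      have := Int.emod_add_mul_ediv (A i0 j) 2
      simp only [hu, hr]; omega
    have hrb : ∀ j, 0 ≤ r j ∧ r j < 2 ^ (m + 1) := by
      intro j
      have h1 := hrow j
      have h2 : (2 : ℤ) ^ (m + 1 + 1) = 2 * 2 ^ (m + 1) := by ring
      simp only [hr]
      constructor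
      · omega
      · omega
    have hub : ∀ j, u j = 0 ∨ u j = 1 := by
      intro j
      simp only [hu]; omega
    have hpow : (1 : ℤ) < 2 ^ (m + 1) := by
      have : (2 : ℤ) ^ (m + 1) = 2 * 2 ^ m := by ring
      have h1 : (1 : ℤ) ≤ 2 ^ m := one_le_pow₀ (by norm_num)
      omega
    obtain ⟨τ, h1, h2, hcard, B, hdet, hnul, hrest, hi0, ht, hlr⟩ :=
      ih (dbl A i0 u r) (Sum.inr 2) (by
        intro j
        rcases j with j | j
        · simpa [dbl_rl] using hrb j
        · rw [dbl_rr]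
          fin_cases j <;> simp <;> omega)
    let eqv : (κ ⊕ Fin 3) ⊕ τ ≃ κ ⊕ (Fin 3 ⊕ τ) := Equiv.sumAssoc κ (Fin 3) τ
    refine ⟨Fin 3 ⊕ τ, inferInstance, inferInstance, ?_, B.reindex eqv eqv, ?_, ?_, ?_, ?_, ?_, ?_⟩
    · rw [Fintype.card_sum, hcard, Fintype.card_fin]; ring
    · rw [Matrix.det_reindex_self, hdet, dbl_det A i0 u r hAur]
    · intro p _
      exact (nul_reindex p eqv B).trans ((hnul p).trans (dbl_nul p A i0 u r hAur))
    · intro i j hi
      change B (Sum.inl (Sum.inl i)) (Sum.inl (Sum.inl j)) = A i j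
      rw [hrest _ _ (by simp), dbl_ll, if_neg hi]
    · intro j'
      rcases j' with j' | j' | j'
      · change B (Sum.inl (Sum.inl i0)) (Sum.inl (Sum.inl j')) = 0 ∨
          B (Sum.inl (Sum.inl i0)) (Sum.inl (Sum.inl j')) = 1
        rw [hrest _ _ (by simp), dbl_ll, if_pos rfl]
        exact hub j'
      · change B (Sum.inl (Sum.inl i0)) (Sum.inl (Sum.inr j')) = 0 ∨
          B (Sum.inl (Sum.inl i0)) (Sum.inl (Sum.inr j')) = 1
        rw [hrest _ _ (by simp), dbl_lr, if_pos rfl]
        fin_cases j' <;> simp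
      · exact hlr _ _
    · intro t j'
      rcases t with k | t
      · by_cases hk : k = 2
        · subst hk
          exact hi0 _
        · rcases j' with j' | j' | j'
          · change B (Sum.inl (Sum.inr k)) (Sum.inl (Sum.inl j')) = 0 ∨
              B (Sum.inl (Sum.inr k)) (Sum.inl (Sum.inl j')) = 1
            rw [hrest _ _ (by simpa using hk), dbl_rl, if_neg hk]
            exact Or.inl rfl
          · change B (Sum.inl (Sum.inr k)) (Sum.inl (Sum.inr j')) = 0 ∨
              B (Sum.inl (Sum.inr k)) (Sum.inl (Sum.inr j')) = 1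
            rw [hrest _ _ (by simpa using hk), dbl_rr]
            fin_cases k <;> fin_cases j' <;> simp
          · exact hlr _ _
      · exact ht t _
    · intro i t
      rcases t with k | t
      · change B (Sum.inl (Sum.inl i)) (Sum.inl (Sum.inr k)) = 0 ∨
          B (Sum.inl (Sum.inl i)) (Sum.inl (Sum.inr k)) = 1
        rw [hrest _ _ (by simp), dbl_lr]
        by_cases hi : i = i0
        · rw [if_pos hi]
          fin_cases k <;> simp
        · rw [if_neg hi]
          exact Or.inl rfl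
      · exact hlr _ _

end Pool.Agent.DetSpec
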