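import Mathlib
import Pool.Agent.DetSpec.Gadget

set_option autoImplicit false
set_option linter.unusedSectionVars false

open Matrix

namespace Pool.Agent.DetSpec

variable {κ : Type} [Fintype κ] [DecidableEq κ]

lemma nul_add_rank (p : ℕ) [Fact p.Prime] (A : Matrix κ κ ℤ) :
    nul p A + (red p A).rank = Fintype.card κ := by
  have := LinearMap.finrank_range_add_finrank_ker (Matrix.mulVecLin (red p A))
  rw [Module.finrank_fintype_fun_eq_card] at this
  rw [nul, Matrix.rank]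
  omega

lemma nul_transpose (p : ℕ) [Fact p.Prime] (A : Matrix κ κ ℤ) : nul p Aᵀ = nul p A := by
  have h1 := nul_add_rank p A
  have h2 := nul_add_rank p Aᵀ
  have h3 : red p Aᵀ = (red p A)ᵀ := rfl
  rw [h3, Matrix.rank_transpose] at h2
  omega

/-- A bordered binary matrix can be turned into a binary matrix. -/
lemma binarize (A : Matrix κ κ ℤ) (hbin : IsBin A) (b c : κ → ℤ) (e : ℤ)
    (h : BordBd κ b c e) (m : ℕ) (hm : (Fintype.card κ : ℤ) ^ 2 + 1 < 2 ^ (m + 1)) :
    ∃ (κ' : Type) (_ : Fintype κ') (_ : DecidableEq κ'),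
      Fintype.card κ' = Fintype.card κ + 1 + 6 * m ∧
      ∃ B : Matrix κ' κ' ℤ, IsBin B ∧ B.det = (bord A b c e).det ∧
        ∀ (p : ℕ) [Fact p.Prime], nul p B ≤ nul p (bord A b c e) := by
  have hcard : (Fintype.card κ : ℤ) ≤ (Fintype.card κ : ℤ) ^ 2 := by
    have : (0 : ℤ) ≤ Fintype.card κ := by positivity
    rcases this.eq_or_lt with h | h
    · rw [← h]; norm_num
    · nlinarith
  obtain ⟨τ, i1, i2, hc1, M1, hdet1, hnul1, hrest1, hi01, ht1, hlr1⟩ :=
    row_expand m (bord A b c e) (Sum.inr ()) (by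
      intro j
      rcases j with j | j
      · rw [bord_rl]
        have h1 := h.c0 j
        have h2 := h.c1 j
        omega
      · rw [bord_rr]
        have h1 := h.e0
        have h2 := h.e1
        omega)
  obtain ⟨τ', i3, i4, hc2, M2, hdet2, hnul2, hrest2, hi02, ht2, hlr2⟩ :=
    row_expand m M1ᵀ (Sum.inl (Sum.inr ())) (by
      intro j
      rw [Matrix.transpose_apply]
      have hsmall : (1 : ℤ) < 2 ^ (m + 1) := by
        have : (0 : ℤ) ≤ (Fintype.card κ : ℤ) ^ 2 := by positivity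
        omega
      rcases j with (j | j) | j
      · rw [hrest1 _ _ (by simp), bord_lr]
        have h1 := h.b0 j
        have h2 := h.b1 j
        omega
      · rcases hi01 (Sum.inl (Sum.inr ())) with h | h
        · rw [show (Sum.inl (Sum.inr j) : (κ ⊕ Unit) ⊕ τ) = Sum.inl (Sum.inr ()) from rfl, h]
          omega
        · rw [show (Sum.inl (Sum.inr j) : (κ ⊕ Unit) ⊕ τ) = Sum.inl (Sum.inr ()) from rfl, h]
          omega
      · rcases ht1 j (Sum.inl (Sum.inr ())) with h | h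
        · rw [h]; omega
        · rw [h]; omega)
  refine ⟨((κ ⊕ Unit) ⊕ τ) ⊕ τ', inferInstance, inferInstance, ?_, M2ᵀ, ?_, ?_, ?_⟩
  · rw [Fintype.card_sum, Fintype.card_sum, Fintype.card_sum, hc1, hc2, Fintype.card_unit]
    ring
  · intro i j
    rw [Matrix.transpose_apply]
    rcases j with j | j
    · by_cases hj : j = Sum.inl (Sum.inr ())
      · rw [hj]; exact hi02 i
      · rcases i with i | i
        · rw [hrest2 _ _ hj, Matrix.transpose_apply]
          rcases i with i | i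
          · by_cases hi : i = Sum.inr ()
            · rw [hi]; exact hi01 j
            · rcases j with j | j
              · rw [hrest1 _ _ hi]
                rcases i with i | i
                · rcases j with j | j
                  · exact hbin i j
                  · exact (hj rfl).elim
                · exact (hi rfl).elim
              · exact hlr1 _ _
          · exact ht1 _ _
        · exact hlr2 _ _
    · exact ht2 _ _
  · rw [Matrix.det_transpose, hdet2, Matrix.det_transpose, hdet1]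
  · intro p _
    rw [nul_transpose]
    refine (hnul2 p).trans ?_
    rw [nul_transpose]
    exact hnul1 p

lemma big_step_reduce (A : Matrix κ κ ℤ) (hbin : IsBin A) (hA : A.det ≠ 0) (r : ℕ) (hr : 1 ≤ r)
    (hn : ∀ (p : ℕ) [Fact p.Prime], nul p A ≤ r + 1) (m : ℕ)
    (hm : (Fintype.card κ : ℤ) ^ 2 + 1 < 2 ^ (m + 1)) :
    ∃ (κ' : Type) (_ : Fintype κ') (_ : DecidableEq κ'),
      Fintype.card κ' = Fintype.card κ + (1 + 6 * m) ∧
      ∃ B : Matrix κ' κ' ℤ, IsBin B ∧ |A.det| ≤ |B.det| ∧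
        ∀ (p : ℕ) [Fact p.Prime], nul p B ≤ r := by
  obtain ⟨b, c, e, hbd, hdet, hnul⟩ := step_reduce A hbin hA r hr hn
  obtain ⟨κ', h1, h2, hcard, B, hB, hBdet, hBn⟩ := binarize A hbin b c e hbd m hm
  exact ⟨κ', h1, h2, by rw [hcard]; ring, B, hB, by rw [hBdet]; exact hdet,
    fun p _ => (hBn p).trans (hnul p)⟩

lemma big_step_exact (A : Matrix κ κ ℤ) (hbin : IsBin A) (hA : A.det ≠ 0)
    (hn : ∀ (p : ℕ) [Fact p.Prime], nul p A ≤ 1) (m : ℕ)
    (hm : (Fintype.card κ : ℤ) ^ 2 + 1 < 2 ^ (m + 1)) (x : ℕ) (hx : (x : ℤ) ≤ |A.det|) :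
    ∃ (κ' : Type) (_ : Fintype κ') (_ : DecidableEq κ'),
      Fintype.card κ' = Fintype.card κ + (1 + 6 * m) ∧
      ∃ B : Matrix κ' κ' ℤ, IsBin B ∧ |B.det| = x := by
  obtain ⟨y, hy, hy0, hy1⟩ : ∃ y : ℤ, |y| = x ∧ 0 ≤ (y : ℚ) / A.det ∧ (y : ℚ) / A.det ≤ 1 := by
    rcases lt_or_gt_of_ne hA with h | h
    · refine ⟨-x, by simp, ?_, ?_⟩
      · have hq : (A.det : ℚ) < 0 := by exact_mod_cast h
        exact div_nonneg_of_nonpos (by push_cast; simp) hq.le
      · have hq : (A.det : ℚ) < 0 := by exact_mod_cast h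
        rw [div_le_one_of_neg hq]
        have : (A.det : ℤ) ≤ -x := by rw [abs_of_neg h] at hx; omega
        exact_mod_cast this
    · refine ⟨x, by simp, ?_, ?_⟩
      · have hq : (0 : ℚ) < A.det := by exact_mod_cast h
        exact div_nonneg (by push_cast; simp) hq.le
      · have hq : (0 : ℚ) < A.det := by exact_mod_cast h
        rw [div_le_one hq]
        have : (x : ℤ) ≤ A.det := by rwa [abs_of_pos h] at hx
        exact_mod_cast this
  obtain ⟨b, c, e, hbd, hdet⟩ := step_exact A hbin hA hn y hy0 hy1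
  obtain ⟨κ', h1, h2, hcard, B, hB, hBdet, -⟩ := binarize A hbin b c e hbd m hm
  exact ⟨κ', h1, h2, by rw [hcard]; ring, B, hB, by rw [hBdet, hdet, hy]⟩

/-- Iteration of the reduction step. -/
lemma iter_reduce (m t : ℕ) : ∀ {κ : Type} [Fintype κ] [DecidableEq κ] (A : Matrix κ κ ℤ),
    IsBin A → A.det ≠ 0 → (∀ (p : ℕ) [Fact p.Prime], nul p A ≤ t + 1) →
    ((Fintype.card κ + t * (1 + 6 * m) : ℕ) : ℤ) ^ 2 + 1 < 2 ^ (m + 1) →
    ∃ (κ' : Type) (_ : Fintype κ') (_ : DecidableEq κ'),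
      Fintype.card κ' = Fintype.card κ + t * (1 + 6 * m) ∧
      ∃ B : Matrix κ' κ' ℤ, IsBin B ∧ |A.det| ≤ |B.det| ∧
        ∀ (p : ℕ) [Fact p.Prime], nul p B ≤ 1 := by
  induction t with
  | zero =>
    intro κ _ _ A hbin hA hn hm
    exact ⟨κ, inferInstance, inferInstance, by simp, A, hbin, le_refl _, hn⟩
  | succ t ih =>
    intro κ _ _ A hbin hA hn hm
    obtain ⟨κ', h1, h2, hcard, B, hB, hBdet, hBn⟩ :=
      big_step_reduce A hbin hA (t + 1) (by omega) hn m (by
        refine lt_of_le_of_lt ?_ hm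
        gcongr
        omega)
    have hB0 : B.det ≠ 0 := by
      intro h0
      rw [h0, abs_zero] at hBdet
      exact hA (abs_nonpos_iff.1 hBdet)
    obtain ⟨κ'', h3, h4, hcard', C, hC, hCdet, hCn⟩ := ih B hB hB0 hBn (by
      refine lt_of_le_of_lt (le_of_eq ?_) hm
      rw [hcard]; ring_nf)
    exact ⟨κ'', h3, h4, by rw [hcard', hcard]; ring, C, hC, hBdet.trans hCdet, hCn⟩

/-- All integers up to `|det A|` are reached when `A` has small coranks. -/
lemma reach (m t : ℕ) (A : Matrix κ κ ℤ) (hbin : IsBin A) (hA : A.det ≠ 0)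
    (hn : ∀ (p : ℕ) [Fact p.Prime], nul p A ≤ t + 1)
    (hm : ((Fintype.card κ + t * (1 + 6 * m) : ℕ) : ℤ) ^ 2 + 1 < 2 ^ (m + 1))
    (x : ℕ) (hx : (x : ℤ) ≤ |A.det|) :
    ∃ (κ' : Type) (_ : Fintype κ') (_ : DecidableEq κ'),
      Fintype.card κ' = Fintype.card κ + (t + 1) * (1 + 6 * m) ∧
      ∃ B : Matrix κ' κ' ℤ, IsBin B ∧ |B.det| = x := by
  obtain ⟨κ', h1, h2, hcard, B, hB, hBdet, hBn⟩ := iter_reduce m t A hbin hA hn hm
  have hB0 : B.det ≠ 0 := by
    intro h0
    rw [h0, abs_zero] at hBdet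
    exact hA (abs_nonpos_iff.1 hBdet)
  obtain ⟨κ'', h3, h4, hcard', C, hC, hCdet⟩ := big_step_exact B hB hB0 hBn m (by
    rw [hcard]; exact hm) x (hx.trans hBdet)
  exact ⟨κ'', h3, h4, by rw [hcard', hcard]; ring, C, hC, hCdet⟩

end Pool.Agent.DetSpec
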