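import Mathlib
import Pool.Agent.DetSpec.Steps

set_option autoImplicit false
set_option linter.unusedSectionVars false

open Matrix

namespace Pool.Agent.DetSpec

variable {κ : Type} [Fintype κ] [DecidableEq κ]

/-- `p` to the kernel dimension modulo `p` divides the determinant. -/
lemma pow_nul_dvd_det (p : ℕ) [hp : Fact p.Prime] (A : Matrix κ κ ℤ) :
    ((p : ℤ) ^ nul p A) ∣ A.det := by
  set K := LinearMap.ker (Matrix.mulVecLin (red p A)) with hK
  obtain ⟨C, hC⟩ := K.exists_isCompl
  let bK := Module.finBasis (ZMod p) K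
  let bC := Module.finBasis (ZMod p) C
  let β0 := (bK.prod bC).map (Submodule.prodEquivOfIsCompl K C hC)
  have hcard : Fintype.card (Fin (Module.finrank (ZMod p) K) ⊕ Fin (Module.finrank (ZMod p) C)) =
      Fintype.card κ := by
    rw [← Module.finrank_eq_card_basis β0, Module.finrank_fintype_fun_eq_card]
  let e : (Fin (Module.finrank (ZMod p) K) ⊕ Fin (Module.finrank (ZMod p) C)) ≃ κ :=
    Fintype.equivOfCardEq hcard
  let β := β0.reindex e
  have hβK : ∀ i, red p A *ᵥ (β (e (Sum.inl i))) = 0 := by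
    intro i
    have h1 : β (e (Sum.inl i)) = (bK i : κ → ZMod p) := by
      simp [β, β0]
    rw [h1]
    exact (bK i).2
  set W : Matrix κ κ (ZMod p) := (Pi.basisFun (ZMod p) κ).toMatrix β with hW
  have hWdet : W.det ≠ 0 := by
    have : Invertible W := (Pi.basisFun (ZMod p) κ).invertibleToMatrix β
    exact (Matrix.isUnit_det_of_invertible W).ne_zero
  have hWapp : ∀ i j, W i j = β j i := fun i j => by
    simp [hW, Module.Basis.toMatrix_apply]
  set Wt : Matrix κ κ ℤ := Matrix.of fun i j => ((W i j).val : ℤ) with hWt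
  have hred : red p Wt = W := by
    ext i j
    simp [red, hWt]
  have hWtdet : ¬ (p : ℤ) ∣ Wt.det := by
    rw [← ZMod.intCast_zmod_eq_zero_iff_dvd, ← red_det, hred]
    exact hWdet
  have hcol : ∀ i s, (p : ℤ) ∣ (A * Wt) i (e (Sum.inl s)) := by
    intro i s
    rw [← ZMod.intCast_zmod_eq_zero_iff_dvd]
    have h1 := congrFun (hβK s) i
    have h2 : (((A * Wt) i (e (Sum.inl s)) : ℤ) : ZMod p) =
        (red p A *ᵥ (β (e (Sum.inl s)))) i := by
      rw [Matrix.mul_apply, Matrix.mulVec, dotProduct]
      push_cast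
      refine Finset.sum_congr rfl (fun j _ => ?_)
      rw [← hWapp, ← hred]
      rfl
    rw [h2, h1]; rfl
  set v : κ → ℤ := fun j => Sum.elim (fun _ => (p : ℤ)) (fun _ => 1) (e.symm j) with hv
  set M' : Matrix κ κ ℤ := Matrix.of fun i j =>
    Sum.elim (fun _ => (A * Wt) i j / p) (fun _ => (A * Wt) i j) (e.symm j) with hM'
  have hmul : A * Wt = M' * Matrix.diagonal v := by
    ext i j
    rw [Matrix.mul_diagonal]
    obtain ⟨s, rfl⟩ := e.surjective j
    simp only [hM', hv, Matrix.of_apply, Equiv.symm_apply_apply]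
    rcases s with s | s
    · simp only [Sum.elim_inl]
      exact (Int.ediv_mul_cancel (hcol i s)).symm
    · simp
  have hprod : ∏ j, v j = (p : ℤ) ^ nul p A := by
    rw [← e.prod_comp, Fintype.prod_sum_type]
    simp only [hv, Equiv.symm_apply_apply, Sum.elim_inl, Sum.elim_inr, Finset.prod_const_one,
      mul_one, Finset.prod_const, Finset.card_univ, Fintype.card_fin]
    rfl
  have hdvd : ((p : ℤ) ^ nul p A) ∣ A.det * Wt.det := by
    rw [← Matrix.det_mul, hmul, Matrix.det_mul, Matrix.det_diagonal, hprod]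
    exact dvd_mul_left _ _
  have hpp : Prime (p : ℤ) := Nat.prime_iff_prime_int.1 hp.out
  have hcop : IsCoprime ((p : ℤ) ^ nul p A) Wt.det :=
    IsCoprime.pow_left ((Prime.coprime_iff_not_dvd hpp).2 hWtdet)
  exact hcop.dvd_of_dvd_mul_right hdvd

lemma abs_det_le_factorial (A : Matrix κ κ ℤ) (hA : IsBin A) :
    |A.det| ≤ (Fintype.card κ).factorial := by
  have := Matrix.det_le (A := A) (abv := AbsoluteValue.abs) (x := 1) (by
    intro i j
    rcases hA i j with h | h <;> simp [h])
  simpa using this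

end Pool.Agent.DetSpec
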