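import Mathlib
import Pool.Agent.DetSpec.Odl

set_option autoImplicit false
set_option linter.unusedSectionVars false

open Matrix

namespace Pool.Agent.DetSpec

/-- The weight of a Boolean matrix. -/
noncomputable def mwt (η : ℝ) {i n : ℕ} (A0 B : Fin i → Fin n → Bool) : ℝ :=
  ∏ k, rwt η (A0 k) (B k)

/-- The row span of a Boolean matrix over `K`. -/
def rowspan (K : Type) [Field K] {i n : ℕ} (B : Fin i → Fin n → Bool) :
    Submodule K (Fin n → K) := Submodule.span K (Set.range (fun k => bv K (B k)))

lemma mwt_nonneg {η : ℝ} (h0 : 0 ≤ η) (h1 : η ≤ 1 / 2) {i n : ℕ} (A0 B : Fin i → Fin n → Bool) :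
    0 ≤ mwt η A0 B := Finset.prod_nonneg (fun _ _ => rwt_nonneg h0 h1 _ _)

lemma mwt_cons (η : ℝ) {i n : ℕ} (A0 : Fin (i + 1) → Fin n → Bool) (b : Fin n → Bool)
    (B : Fin i → Fin n → Bool) :
    mwt η A0 (Fin.cons b B : Fin (i + 1) → Fin n → Bool) =
      rwt η (A0 0) b * mwt η (fun k => A0 k.succ) B := by
  simp [mwt, Fin.prod_univ_succ]

lemma mwt_sum (η : ℝ) {i n : ℕ} (A0 : Fin i → Fin n → Bool) : ∑ B, mwt η A0 B = 1 := by
  induction i with
  | zero => simp [mwt]
  | succ i ih =>
    rw [sum_cons]
    simp_rw [mwt_cons, ← Finset.mul_sum, ih, mul_one]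
    exact rwt_sum η (A0 0)

lemma rowspan_cons (K : Type) [Field K] {i n : ℕ} (b : Fin n → Bool) (B : Fin i → Fin n → Bool) :
    rowspan K (Fin.cons b B : Fin (i + 1) → Fin n → Bool) =
      Submodule.span K {bv K b} ⊔ rowspan K B := by
  have : Set.range (fun k : Fin (i + 1) =>
      bv K ((Fin.cons b B : Fin (i + 1) → Fin n → Bool) k)) =
      insert (bv K b) (Set.range (fun k => bv K (B k))) := by
    ext x
    constructor
    · rintro ⟨k, rfl⟩
      refine Fin.cases ?_ (fun j => ?_) k
      · exact Or.inl rfl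
      · exact Or.inr ⟨j, rfl⟩
    · rintro (rfl | ⟨j, rfl⟩)
      · exact ⟨0, rfl⟩
      · exact ⟨j.succ, rfl⟩
  rw [rowspan, this, Submodule.span_insert]
  rfl

lemma finrank_rowspan_le (K : Type) [Field K] {i n : ℕ} (B : Fin i → Fin n → Bool) :
    Module.finrank K (rowspan K B) ≤ i := by
  have := finrank_range_le_card (R := K) (fun k => bv K (B k))
  rwa [Fintype.card_fin] at this

lemma finrank_sup_not_mem (K : Type) [Field K] {n : ℕ} (v : Fin n → K)
    (V : Submodule K (Fin n → K)) (hv : v ∉ V) :
    Module.finrank K (Submodule.span K {v} ⊔ V : Submodule K (Fin n → K)) =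
      Module.finrank K V + 1 := by
  have hv0 : v ≠ 0 := by rintro rfl; exact hv V.zero_mem
  have hinf : Submodule.span K {v} ⊓ V = ⊥ := by
    rw [eq_bot_iff]
    intro x hx
    obtain ⟨hx1, hx2⟩ := hx
    obtain ⟨r, rfl⟩ := Submodule.mem_span_singleton.1 hx1
    by_cases hr : r = 0
    · subst hr; simp
    · exfalso
      apply hv
      have := V.smul_mem r⁻¹ hx2
      rwa [smul_smul, inv_mul_cancel₀ hr, one_smul] at this
  have h := Submodule.finrank_sup_add_finrank_inf_eq (Submodule.span K {v}) V
  rw [hinf, finrank_bot, finrank_span_singleton hv0] at h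
  omega

open Classical in
lemma rank_moment (K : Type) [Field K] {η : ℝ} (h0 : 0 ≤ η) (h1 : η ≤ 1 / 2) (n k : ℕ)
    (y : ℝ) (hy : 0 ≤ y) (i : ℕ) :
    ∀ A0 : Fin i → Fin n → Bool,
    ∑ B : Fin i → Fin n → Bool, (if Module.finrank K (rowspan K B) + k ≤ n then
      y ^ (i - Module.finrank K (rowspan K B)) * mwt η A0 B else 0) ≤
      (1 + y * (1 - η) ^ k) ^ i := by
  have hq0 : 0 ≤ 1 - η := by linarith
  have hq1 : 1 - η ≤ 1 := by linarith
  induction i with
  | zero =>
    intro A0
    have : ∀ B : Fin 0 → Fin n → Bool, (if Module.finrank K (rowspan K B) + k ≤ n then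
      y ^ (0 - Module.finrank K (rowspan K B)) * mwt η A0 B else 0) ≤ 1 := by
      intro B
      split_ifs
      · simp [mwt]
      · norm_num
    calc _ ≤ ∑ _B : Fin 0 → Fin n → Bool, (1 : ℝ) := Finset.sum_le_sum (fun B _ => this B)
      _ = _ := by simp
  | succ i ih =>
    intro A0
    rw [sum_cons, Finset.sum_comm]
    have inner : ∀ B : Fin i → Fin n → Bool,
        ∑ b : Fin n → Bool, (if Module.finrank K
          (rowspan K (Fin.cons b B : Fin (i + 1) → Fin n → Bool)) + k ≤ n then
          y ^ (i + 1 - Module.finrank K (rowspan K (Fin.cons b B : Fin (i + 1) → Fin n → Bool))) *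
            mwt η A0 (Fin.cons b B : Fin (i + 1) → Fin n → Bool) else 0) ≤
        (if Module.finrank K (rowspan K B) + k ≤ n then
          y ^ (i - Module.finrank K (rowspan K B)) * mwt η (fun k => A0 k.succ) B else 0) *
          (1 + y * (1 - η) ^ k) := by
      intro B
      have hBi := finrank_rowspan_le K B
      have hw0 := mwt_nonneg h0 h1 (fun k => A0 k.succ) B
      by_cases hB : Module.finrank K (rowspan K B) + k ≤ n
      · rw [if_pos hB]
        have hterm : ∀ b : Fin n → Bool, (if Module.finrank K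
          (rowspan K (Fin.cons b B : Fin (i + 1) → Fin n → Bool)) + k ≤ n then
          y ^ (i + 1 - Module.finrank K (rowspan K (Fin.cons b B : Fin (i + 1) → Fin n → Bool))) *
            mwt η A0 (Fin.cons b B : Fin (i + 1) → Fin n → Bool) else 0) ≤
          y ^ (i - Module.finrank K (rowspan K B)) * mwt η (fun k => A0 k.succ) B *
            (rwt η (A0 0) b + y * (if bv K b - 0 ∈ rowspan K B then rwt η (A0 0) b else 0)) := by
          intro b
          have hr0 := rwt_nonneg h0 h1 (A0 0) b
          rw [sub_zero, mwt_cons]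
          by_cases hb : bv K b ∈ rowspan K B
          · have hs : rowspan K (Fin.cons b B : Fin (i + 1) → Fin n → Bool) = rowspan K B := by
              rw [rowspan_cons]
              refine sup_eq_right.2 ?_
              rw [Submodule.span_singleton_le_iff_mem]
              exact hb
            rw [hs, if_pos hB, if_pos hb]
            have e1 : i + 1 - Module.finrank K (rowspan K B) =
              (i - Module.finrank K (rowspan K B)) + 1 := by omega
            rw [e1, pow_succ]
            have h5 : 0 ≤ y ^ (i - Module.finrank K (rowspan K B)) *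
              mwt η (fun k => A0 k.succ) B * rwt η (A0 0) b := by positivity
            nlinarith
          · have hs : Module.finrank K
              (rowspan K (Fin.cons b B : Fin (i + 1) → Fin n → Bool)) =
              Module.finrank K (rowspan K B) + 1 := by
              rw [rowspan_cons]
              exact finrank_sup_not_mem K _ _ hb
            rw [hs, if_neg hb, mul_zero, add_zero]
            have e1 : i + 1 - (Module.finrank K (rowspan K B) + 1) =
              (i - Module.finrank K (rowspan K B)) := by omega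
            rw [e1]
            have h5 : 0 ≤ y ^ (i - Module.finrank K (rowspan K B)) *
              mwt η (fun k => A0 k.succ) B * rwt η (A0 0) b := by positivity
            split_ifs
            · nlinarith
            · exact h5
        refine (Finset.sum_le_sum (fun b _ => hterm b)).trans ?_
        rw [← Finset.mul_sum, Finset.sum_add_distrib, rwt_sum, ← Finset.mul_sum]
        have hodl := odlyzko K h0 h1 n (rowspan K B) 0 (A0 0)
        have hpow : (1 - η) ^ (n - Module.finrank K (rowspan K B)) ≤ (1 - η) ^ k :=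
          pow_le_pow_of_le_one hq0 hq1 (by omega)
        refine mul_le_mul_of_nonneg_left ?_ (by positivity)
        have := mul_le_mul_of_nonneg_left (hodl.trans hpow) hy
        linarith
      · rw [if_neg hB, zero_mul]
        refine le_of_eq (Finset.sum_eq_zero (fun b _ => if_neg ?_))
        intro hcon
        apply hB
        have : Module.finrank K (rowspan K B) ≤ Module.finrank K
          (rowspan K (Fin.cons b B : Fin (i + 1) → Fin n → Bool)) := by
          rw [rowspan_cons]
          exact Submodule.finrank_mono le_sup_right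
        omega
    refine (Finset.sum_le_sum (fun B _ => inner B)).trans ?_
    rw [← Finset.sum_mul, pow_succ]
    exact mul_le_mul_of_nonneg_right (ih _) (by positivity)

open Classical in
/-- The weight of the matrices of small rank. -/
lemma rank_tail (K : Type) [Field K] {η : ℝ} (h0 : 0 ≤ η) (h1 : η ≤ 1 / 2) (n k : ℕ)
    (hn : 1 ≤ n) (hnk : (n : ℝ) * (1 - η) ^ k ≤ 1) (A0 : Fin n → Fin n → Bool) :
    ∑ B : Fin n → Fin n → Bool, (if Module.finrank K (rowspan K B) + k ≤ n then
      mwt η A0 B else 0) ≤ 3 * ((n : ℝ) * (1 - η) ^ k) ^ k := by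
  have hq0 : 0 < 1 - η := by linarith
  have hnpos : (0 : ℝ) < n := by exact_mod_cast hn
  set w : ℝ := (n : ℝ) * (1 - η) ^ k with hw
  have hw0 : 0 < w := by positivity
  have hmom := rank_moment K h0 h1 n k (w⁻¹) (by positivity) n A0
  have hy1 : 1 ≤ w⁻¹ := (one_le_inv₀ hw0).2 hnk
  have e1 : 1 + w⁻¹ * (1 - η) ^ k = 1 + 1 / (n : ℝ) := by
    rw [hw]; field_simp
  have e2 : (1 + 1 / (n : ℝ)) ^ n ≤ 3 := by
    have h2 : 1 + 1 / (n : ℝ) ≤ Real.exp (1 / n) := by
      have := Real.add_one_le_exp (1 / (n : ℝ)); linarith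
    calc (1 + 1 / (n : ℝ)) ^ n ≤ (Real.exp (1 / n)) ^ n :=
          pow_le_pow_left₀ (by positivity) h2 n
      _ = Real.exp 1 := by rw [← Real.exp_nat_mul]; congr 1; field_simp
      _ ≤ 3 := by have := Real.exp_one_lt_d9; linarith
  rw [e1] at hmom
  have h3 : (w⁻¹) ^ k * ∑ B : Fin n → Fin n → Bool, (if Module.finrank K (rowspan K B) + k ≤ n then
      mwt η A0 B else 0) ≤ 3 := by
    refine le_trans ?_ (hmom.trans e2)
    rw [Finset.mul_sum]
    refine Finset.sum_le_sum (fun B _ => ?_)
    split_ifs with hB
    · refine mul_le_mul_of_nonneg_right ?_ (mwt_nonneg h0 h1 A0 B)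
      exact pow_le_pow_right₀ hy1 (by omega)
    · rw [mul_zero]
  calc _ = w ^ k * ((w⁻¹) ^ k * ∑ B : Fin n → Fin n → Bool,
        (if Module.finrank K (rowspan K B) + k ≤ n then mwt η A0 B else 0)) := by
        rw [← mul_assoc, ← mul_pow, mul_inv_cancel₀ hw0.ne', one_pow, one_mul]
    _ ≤ w ^ k * 3 := mul_le_mul_of_nonneg_left h3 (by positivity)
    _ = _ := by ring

/-- The real `0/1` matrix of a Boolean matrix. -/
def matR {n : ℕ} (B : Fin n → Fin n → Bool) : Matrix (Fin n) (Fin n) ℝ :=
  Matrix.of fun i j => if B i j then 1 else 0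

lemma rwt_marginal (η : ℝ) {n : ℕ} (a : Fin n → Bool) (j : Fin n) :
    ∑ f, rwt η a f * (if f j then (1 : ℝ) else 0) = if a j then 1 - η else η := by
  have h1 : ∀ f : Fin n → Bool, rwt η a f * (if f j then (1 : ℝ) else 0) =
      ∏ l, (wt η (a l) (f l) * (if l = j then (if f l then (1 : ℝ) else 0) else 1)) := by
    intro f
    rw [Finset.prod_mul_distrib]
    congr 1
    rw [Finset.prod_ite_eq' Finset.univ j (fun l => if f l then (1 : ℝ) else 0)]
    simp
  simp_rw [h1]
  have h2 := Finset.prod_univ_sum (fun _ : Fin n => (Finset.univ : Finset Bool))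
    (fun l b => wt η (a l) b * (if l = j then (if b then (1 : ℝ) else 0) else 1))
  rw [Fintype.piFinset_univ] at h2
  rw [← h2]
  have h3 : ∀ l, ∑ b : Bool, wt η (a l) b * (if l = j then (if b then (1 : ℝ) else 0) else 1) =
      if l = j then (if a l then 1 - η else η) else 1 := by
    intro l
    by_cases hl : l = j
    · simp only [hl, if_true]
      rw [Fintype.sum_bool]
      cases a j <;> simp [wt]
    · simp only [hl, if_false, mul_one]
      exact wt_sum η (a l)
  simp_rw [h3]
  rw [Finset.prod_ite_eq' Finset.univ j (fun l => if a l then 1 - η else η)]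
  simp

lemma expect_det (η : ℝ) {n : ℕ} (A0 : Fin n → Fin n → Bool) :
    ∑ B, mwt η A0 B * (matR B).det =
      (Matrix.of fun i j => if A0 i j then 1 - η else η : Matrix (Fin n) (Fin n) ℝ).det := by
  have h1 : (Matrix.of fun i j => if A0 i j then 1 - η else η : Matrix (Fin n) (Fin n) ℝ) =
      fun i => ∑ f : Fin n → Bool, rwt η (A0 i) f • (bv ℝ f) := by
    funext i j
    rw [Finset.sum_apply]
    simp only [Pi.smul_apply, smul_eq_mul, bv, Matrix.of_apply]
    exact (rwt_marginal η (A0 i) j).symm
  rw [h1]
  have h2 := (Matrix.detRowAlternating (n := Fin n) (R := ℝ)).toMultilinearMap.map_sum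
    (fun (i : Fin n) (f : Fin n → Bool) => rwt η (A0 i) f • (bv ℝ f))
  change (Matrix.detRowAlternating (n := Fin n) (R := ℝ)) _ = _ at h2
  change _ = (Matrix.detRowAlternating (n := Fin n) (R := ℝ)) _
  rw [h2]
  refine Finset.sum_congr rfl (fun B _ => ?_)
  have h3 := (Matrix.detRowAlternating (n := Fin n) (R := ℝ)).toMultilinearMap.map_smul_univ
    (fun i => rwt η (A0 i) (B i)) (fun i => bv ℝ (B i))
  rw [h3, smul_eq_mul]
  rfl

end Pool.Agent.DetSpec
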