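import Mathlib
import Pool.Agent.DetSpec.Rk
import Pool.Agent.DetSpec.PowDvd

set_option autoImplicit false
set_option linter.unusedSectionVars false

open Matrix

namespace Pool.Agent.DetSpec

/-- The integer `0/1` matrix of a Boolean matrix. -/
def matZ {n : ℕ} (B : Fin n → Fin n → Bool) : Matrix (Fin n) (Fin n) ℤ :=
  Matrix.of fun i j => if B i j then 1 else 0

lemma matZ_bin {n : ℕ} (B : Fin n → Fin n → Bool) : IsBin (matZ B) := by
  intro i j
  simp only [matZ, Matrix.of_apply]
  split_ifs <;> simp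

lemma matR_det {n : ℕ} (B : Fin n → Fin n → Bool) : (matR B).det = ((matZ B).det : ℝ) := by
  have := (Int.castRingHom ℝ).map_det (matZ B)
  rw [eq_intCast] at this
  rw [this]
  congr 1
  ext i j
  simp only [matR, matZ, Matrix.of_apply, RingHom.mapMatrix_apply, Matrix.map_apply]
  split_ifs <;> simp

lemma exists_matZ {n : ℕ} (A : Matrix (Fin n) (Fin n) ℤ) (hA : IsBin A) :
    ∃ B : Fin n → Fin n → Bool, matZ B = A := by
  refine ⟨fun i j => decide (A i j = 1), ?_⟩
  ext i j
  simp only [matZ, Matrix.of_apply, decide_eq_true_eq]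
  rcases hA i j with h | h <;> simp [h]

/-- A matrix with maximal determinant in absolute value. -/
def IsMax {n : ℕ} (A0 : Fin n → Fin n → Bool) : Prop :=
  ∀ B : Fin n → Fin n → Bool, |(matR B).det| ≤ (matR A0).det

lemma exists_isMax (n : ℕ) (hn : 2 ≤ n) : ∃ A0 : Fin n → Fin n → Bool, IsMax A0 := by
  obtain ⟨A0, hA0⟩ := Finite.exists_max (fun B : Fin n → Fin n → Bool => (matR B).det)
  refine ⟨A0, fun B => ?_⟩
  rw [abs_le]
  refine ⟨?_, hA0 B⟩
  -- swap two rows
  let i0 : Fin n := ⟨0, by omega⟩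
  let i1 : Fin n := ⟨1, by omega⟩
  have hne : i0 ≠ i1 := by
    intro h
    have := congrArg Fin.val h
    simp [i0, i1] at this
  have h1 := hA0 (fun i => B (Equiv.swap i0 i1 i))
  have h2 : (matR (fun i => B (Equiv.swap i0 i1 i))).det = - (matR B).det := by
    have : matR (fun i => B (Equiv.swap i0 i1 i)) = (matR B).submatrix (Equiv.swap i0 i1) id := by
      ext i j; rfl
    rw [this, Matrix.det_permute, Equiv.Perm.sign_swap hne]
    simp
  change (matR (fun i => B (Equiv.swap i0 i1 i))).det ≤ (matR A0).det at h1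
  rw [h2] at h1
  linarith

lemma isMax_updateRow_nonneg {n : ℕ} (A0 : Fin n → Fin n → Bool) (h : IsMax A0) (j : Fin n) :
    0 ≤ ((matR A0).updateRow j 1).det := by
  set B : Fin n → Fin n → Bool := Function.update A0 j (fun k => !A0 j k) with hB
  have h1 : matR B = (matR A0).updateRow j (1 + (-1 : ℝ) • (matR A0) j) := by
    ext i k
    by_cases hi : i = j
    · subst hi
      simp only [hB, matR, Matrix.of_apply, Function.update_self, Matrix.updateRow_self,
        Pi.add_apply, Pi.one_apply, Pi.smul_apply, smul_eq_mul]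
      cases A0 i k <;> simp
    · simp only [hB, matR, Matrix.of_apply, Function.update_of_ne hi, Matrix.updateRow_ne hi]
  have h2 : (matR B).det = ((matR A0).updateRow j 1).det - (matR A0).det := by
    rw [h1, Matrix.det_updateRow_add, Matrix.det_updateRow_smul, Matrix.updateRow_eq_self]
    ring
  have h3 := h B
  have h4 := (abs_le.1 h3).1
  linarith

lemma det_add_const {n : ℕ} (A0 : Fin n → Fin n → Bool) (h : IsMax A0)
    (hpos : 0 < (matR A0).det) (t : ℝ) (ht : 0 ≤ t) :
    (matR A0).det ≤ (matR A0 + Matrix.of fun _ _ => t).det := by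
  set A := matR A0 with hA
  have hu : IsUnit A.det := hpos.ne'.isUnit
  let Rr : Matrix Unit (Fin n) ℝ := Matrix.replicateRow Unit (fun _ => (1 : ℝ))
  let Cc : Matrix (Fin n) Unit ℝ := Matrix.replicateCol Unit (fun _ => t)
  have h1 : (Matrix.of fun (_ _ : Fin n) => t) = Cc * Rr := by
    ext i j
    simp [Matrix.mul_apply, Cc, Rr]
  have h2 : (1 + Rr * A⁻¹ * Cc).det = 1 + t * (A.det)⁻¹ * ∑ j, (A.updateRow j 1).det := by
    rw [Matrix.det_unique]
    have h3 : ∀ j, (A.updateRow j 1).det = ∑ i, A.adjugate i j := by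
      intro j
      rw [← Matrix.cramer_transpose_apply, Matrix.cramer_eq_adjugate_mulVec,
        ← Matrix.adjugate_transpose]
      simp [Matrix.mulVec, dotProduct]
    simp_rw [h3]
    rw [Matrix.add_apply, Matrix.one_apply_eq, Matrix.inv_def, Ring.inverse_eq_inv',
      Matrix.mul_apply]
    congr 1
    simp only [Cc, Rr, Matrix.replicateCol_apply, Matrix.mul_apply, Matrix.replicateRow_apply,
      one_mul, Matrix.smul_apply, smul_eq_mul]
    rw [Finset.mul_sum]
    refine Finset.sum_congr rfl (fun j _ => ?_)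
    rw [← Finset.mul_sum]
    ring
  rw [h1, Matrix.det_add_replicateCol_mul_replicateRow hu]
  change A.det ≤ A.det * (1 + Rr * A⁻¹ * Cc).det
  rw [h2]
  have h4 : 0 ≤ t * (A.det)⁻¹ * ∑ j, (A.updateRow j 1).det := by
    refine mul_nonneg (mul_nonneg ht (inv_nonneg.2 hpos.le)) ?_
    exact Finset.sum_nonneg (fun j _ => isMax_updateRow_nonneg A0 h j)
  nlinarith

lemma expect_lower {n : ℕ} (A0 : Fin n → Fin n → Bool) (h : IsMax A0)
    (hpos : 0 < (matR A0).det) {η : ℝ} (h0 : 0 ≤ η) (h1 : η < 1 / 2) :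
    (1 - 2 * η) ^ n * (matR A0).det ≤ ∑ B, mwt η A0 B * (matR B).det := by
  have hc : 0 < 1 - 2 * η := by linarith
  rw [expect_det]
  have h2 : (Matrix.of fun i j => if A0 i j then 1 - η else η : Matrix (Fin n) (Fin n) ℝ) =
      (1 - 2 * η) • (matR A0 + Matrix.of fun _ _ => η / (1 - 2 * η)) := by
    ext i j
    simp only [matR, Matrix.smul_apply, Matrix.add_apply, Matrix.of_apply, smul_eq_mul]
    split_ifs
    · rw [mul_add, mul_div_cancel₀ _ hc.ne']; ring
    · rw [mul_add, mul_div_cancel₀ _ hc.ne']; ring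
  rw [h2, Matrix.det_smul, Fintype.card_fin]
  exact mul_le_mul_of_nonneg_left (det_add_const A0 h hpos _ (div_nonneg h0 hc.le))
    (pow_nonneg hc.le _)

open Classical in
lemma good_weight {n : ℕ} (A0 : Fin n → Fin n → Bool) (h : IsMax A0)
    (hpos : 0 < (matR A0).det) {η : ℝ} (h0 : 0 ≤ η) (h1 : η < 1 / 2) :
    (1 - 2 * η) ^ n / 2 ≤ ∑ B, (if (1 - 2 * η) ^ n / 2 * (matR A0).det ≤ (matR B).det then
      mwt η A0 B else 0) := by
  set D := (matR A0).det with hD
  set θ := (1 - 2 * η) ^ n with hθ
  have hc : 0 < 1 - 2 * η := by linarith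
  have hθ0 : 0 < θ := pow_pos hc n
  have hexp := expect_lower A0 h hpos h0 h1
  have hterm : ∀ B : Fin n → Fin n → Bool, mwt η A0 B * (matR B).det ≤
      D * (if θ / 2 * D ≤ (matR B).det then mwt η A0 B else 0) + θ / 2 * D * mwt η A0 B := by
    intro B
    have hw := mwt_nonneg h0 h1.le A0 B
    have hle : (matR B).det ≤ D := (le_abs_self _).trans (h B)
    have h5 : 0 ≤ θ / 2 * D * mwt η A0 B := by positivity
    split_ifs with hB
    · nlinarith
    · push Not at hB
      have := mul_le_mul_of_nonneg_left hB.le hw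
      linarith
  have hsum := Finset.sum_le_sum (fun B (_ : B ∈ Finset.univ) => hterm B)
  rw [Finset.sum_add_distrib, ← Finset.mul_sum, ← Finset.mul_sum, mwt_sum, mul_one] at hsum
  have h6 := hexp.trans hsum
  have h7 : D * (θ / 2) ≤ D * ∑ B, (if θ / 2 * D ≤ (matR B).det then mwt η A0 B else 0) := by
    linarith
  exact le_of_mul_le_mul_left h7 hpos

lemma nul_eq_rowspan {n : ℕ} (p : ℕ) [Fact p.Prime] (B : Fin n → Fin n → Bool) :
    nul p (matZ B) + Module.finrank (ZMod p) (rowspan (ZMod p) B) = n := by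
  have h1 := nul_add_rank p (matZ B)
  rw [Matrix.rank_eq_finrank_span_row, Fintype.card_fin] at h1
  have h2 : Set.range (red p (matZ B)).row = Set.range (fun k => bv (ZMod p) (B k)) := by
    congr 1
    funext k j
    simp only [Matrix.row, red, matZ, Matrix.map_apply, Matrix.of_apply, bv]
    split_ifs <;> simp
  rw [h2] at h1
  exact h1

/-- Existence of a binary matrix with large determinant and small coranks. -/
lemma exists_good {n : ℕ} (hn : 1 ≤ n) (A0 : Fin n → Fin n → Bool) (h : IsMax A0)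
    (hpos : 0 < (matR A0).det) {η : ℝ} (h0 : 0 ≤ η) (h1 : η < 1 / 2) (k P : ℕ)
    (hnk : (n : ℝ) * (1 - η) ^ k ≤ 1)
    (hsmall : (P : ℝ) * (3 * ((n : ℝ) * (1 - η) ^ k) ^ k) < (1 - 2 * η) ^ n / 2)
    (hP : (n.factorial : ℝ) < (P : ℝ) ^ k) (hP1 : 1 ≤ P) :
    ∃ B : Fin n → Fin n → Bool, (1 - 2 * η) ^ n / 2 * (matR A0).det ≤ (matR B).det ∧
      ∀ (p : ℕ) [Fact p.Prime], nul p (matZ B) ≤ k := by
  classical
  by_contra hcon
  push Not at hcon
  set D := (matR A0).det with hD
  set θ := (1 - 2 * η) ^ n with hθ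
  have hc : 0 < 1 - 2 * η := by linarith
  have hθ0 : 0 < θ := pow_pos hc n
  -- every matrix with large determinant is bad at a small prime
  have hbad : ∀ B : Fin n → Fin n → Bool, θ / 2 * D ≤ (matR B).det →
      ∃ p ∈ (Finset.range P).filter Nat.Prime,
        ∃ hp : Fact p.Prime, Module.finrank (ZMod p) (rowspan (ZMod p) B) + k ≤ n := by
    intro B hB
    obtain ⟨p, hp, hpk⟩ := hcon B hB
    have hdet0 : 0 < (matR B).det := lt_of_lt_of_le (by positivity) hB
    have hlt : p < P := by
      by_contra hge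
      push Not at hge
      have hdvd := pow_nul_dvd_det p (matZ B)
      have hdetZ : 0 < (matZ B).det := by
        rw [matR_det] at hdet0
        exact_mod_cast hdet0
      have h2 : ((p : ℤ) ^ nul p (matZ B)) ≤ (matZ B).det := Int.le_of_dvd hdetZ hdvd
      have h3 := abs_det_le_factorial (matZ B) (matZ_bin B)
      rw [Fintype.card_fin] at h3
      have h4 : ((p : ℤ) ^ nul p (matZ B)) ≤ n.factorial :=
        h2.trans ((le_abs_self _).trans h3)
      have h5 : ((p : ℝ) ^ nul p (matZ B)) ≤ n.factorial := by exact_mod_cast h4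
      have hPp : (P : ℝ) ≤ p := by exact_mod_cast hge
      have hP1' : (1 : ℝ) ≤ P := by exact_mod_cast hP1
      have h6 : (P : ℝ) ^ k ≤ (p : ℝ) ^ nul p (matZ B) :=
        calc (P : ℝ) ^ k ≤ (p : ℝ) ^ k := pow_le_pow_left₀ (by positivity) hPp k
          _ ≤ _ := pow_le_pow_right₀ (by linarith) hpk.le
      linarith
    refine ⟨p, Finset.mem_filter.2 ⟨Finset.mem_range.2 hlt, hp.out⟩, hp, ?_⟩
    have := nul_eq_rowspan p B
    omega
  have hgood := good_weight A0 h hpos h0 h1
  -- union bound
  have hunion : ∑ B, (if θ / 2 * D ≤ (matR B).det then mwt η A0 B else 0) ≤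
      ∑ p ∈ (Finset.range P).filter Nat.Prime, 3 * ((n : ℝ) * (1 - η) ^ k) ^ k := by
    calc ∑ B, (if θ / 2 * D ≤ (matR B).det then mwt η A0 B else 0)
        ≤ ∑ B : Fin n → Fin n → Bool, ∑ p ∈ (Finset.range P).filter Nat.Prime,
          (if ∃ hp : Fact p.Prime, Module.finrank (ZMod p) (rowspan (ZMod p) B) + k ≤ n then
            mwt η A0 B else 0) := by
          refine Finset.sum_le_sum (fun B _ => ?_)
          have hw := mwt_nonneg h0 h1.le A0 B
          have hnn : ∀ p ∈ (Finset.range P).filter Nat.Prime, (0 : ℝ) ≤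
            (if ∃ hp : Fact p.Prime, Module.finrank (ZMod p) (rowspan (ZMod p) B) + k ≤ n then
              mwt η A0 B else 0) := by
            intro p _
            split_ifs
            · exact hw
            · exact le_refl _
          split_ifs with hB
          · obtain ⟨p, hpm, hpb⟩ := hbad B hB
            calc mwt η A0 B = (if ∃ hp : Fact p.Prime,
                Module.finrank (ZMod p) (rowspan (ZMod p) B) + k ≤ n then
                mwt η A0 B else 0) := (if_pos hpb).symm
              _ ≤ _ := Finset.single_le_sum (f := fun p => (if ∃ hp : Fact p.Prime,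
                Module.finrank (ZMod p) (rowspan (ZMod p) B) + k ≤ n then
                mwt η A0 B else 0)) hnn hpm
          · exact Finset.sum_nonneg hnn
      _ = ∑ p ∈ (Finset.range P).filter Nat.Prime, ∑ B : Fin n → Fin n → Bool,
          (if ∃ hp : Fact p.Prime, Module.finrank (ZMod p) (rowspan (ZMod p) B) + k ≤ n then
            mwt η A0 B else 0) := Finset.sum_comm
      _ ≤ _ := by
          refine Finset.sum_le_sum (fun p hp => ?_)
          have hpp : Fact p.Prime := ⟨(Finset.mem_filter.1 hp).2⟩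
          refine le_trans (le_of_eq ?_) (rank_tail (ZMod p) h0 h1.le n k hn hnk A0)
          refine Finset.sum_congr rfl (fun B _ => ?_)
          refine if_congr ?_ rfl rfl
          exact ⟨fun ⟨_, hh⟩ => hh, fun hh => ⟨hpp, hh⟩⟩
  have hcardP : ∑ p ∈ (Finset.range P).filter Nat.Prime, 3 * ((n : ℝ) * (1 - η) ^ k) ^ k ≤
      P * (3 * ((n : ℝ) * (1 - η) ^ k) ^ k) := by
    rw [Finset.sum_const, nsmul_eq_mul]
    have hq0 : 0 ≤ 1 - η := by linarith
    refine mul_le_mul_of_nonneg_right ?_ (by positivity)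
    have := Finset.card_filter_le (Finset.range P) Nat.Prime
    rw [Finset.card_range] at this
    exact_mod_cast this
  linarith

end Pool.Agent.DetSpec
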