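import Mathlib
import Pool.Agent.DetSpec.Max

set_option autoImplicit false
set_option linter.unusedSectionVars false

open Matrix

namespace Pool.Agent.DetSpec

/-- Duality: a vector outside the column space is detected by a left kernel vector. -/
lemma exists_left_kernel {n : ℕ} {F : Type} [Field F] (M : Matrix (Fin n) (Fin n) F)
    (b : Fin n → F) (hb : b ∉ LinearMap.range (Matrix.mulVecLin M)) :
    ∃ y : Fin n → F, y ᵥ* M = 0 ∧ y ⬝ᵥ b ≠ 0 := by
  obtain ⟨f, hfb, hf⟩ := Submodule.exists_le_ker_of_notMem hb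
  have hrep : ∀ v : Fin n → F, f v = (fun i => f (Pi.single i 1)) ⬝ᵥ v := by
    intro v
    conv_lhs => rw [← LinearMap.sum_single_apply (fun _ : Fin n => F) v, map_sum]
    refine Finset.sum_congr rfl (fun i _ => ?_)
    have : (Pi.single i (v i) : Fin n → F) = v i • (Pi.single i 1 : Fin n → F) := by
      rw [← Pi.single_smul, smul_eq_mul, mul_one]
    rw [this, map_smul, smul_eq_mul, mul_comm]
  refine ⟨fun i => f (Pi.single i 1), ?_, ?_⟩
  · funext j
    have h1 : f (M *ᵥ (Pi.single j 1)) = 0 := hf ⟨Pi.single j 1, rfl⟩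
    rw [hrep, Matrix.dotProduct_mulVec, dotProduct_single, mul_one] at h1
    exact h1
  · rw [← hrep]; exact hfb

/-- The integer `0/1` vector. -/
def bz {n : ℕ} (f : Fin n → Bool) : Fin n → ℤ := fun j => if f j then 1 else 0

lemma redv_bz (p : ℕ) [Fact p.Prime] {n : ℕ} (f : Fin n → Bool) :
    redv p (bz f) = bv (ZMod p) f := by
  funext j
  simp only [redv, bz, bv]
  split_ifs <;> simp

lemma exists_colGood01 {n : ℕ} (A : Matrix (Fin n) (Fin n) ℤ) (hA : A.det ≠ 0) (r : ℕ)
    (hr : 1 ≤ r) (hcard : A.det.natAbs.primeFactors.card < 2 ^ r) :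
    ∃ f : Fin n → Bool, ∀ (p : ℕ) [Fact p.Prime], r ≤ nul p A → ColGood p A (bz f) := by
  classical
  by_contra hcon
  push Not at hcon
  have hbad : ∀ f : Fin n → Bool, ∃ p ∈ A.det.natAbs.primeFactors, ∃ hp : Fact p.Prime,
      r ≤ nul p A ∧ bv (ZMod p) f - 0 ∈ LinearMap.range (Matrix.mulVecLin (red p A)) := by
    intro f
    obtain ⟨p, hp, hrp, hng⟩ := hcon f
    refine ⟨p, ?_, hp, hrp, ?_⟩
    · have hd : (p : ℤ) ∣ A.det := by
        by_contra hnd
        have := (nul_eq_zero_iff p A).2 hnd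
        omega
      exact Nat.mem_primeFactors.2 ⟨hp.out, Int.natCast_dvd.1 hd, by simpa using hA⟩
    · by_contra hnot
      rw [sub_zero] at hnot
      obtain ⟨y, hy, hyb⟩ := exists_left_kernel (red p A) _ hnot
      exact hng ⟨y, hy, by rwa [redv_bz]⟩
  set a : Fin n → Bool := fun _ => false with ha
  have h1 : (1 : ℝ) ≤ ∑ p ∈ A.det.natAbs.primeFactors, (1 / 2 : ℝ) ^ r := by
    calc (1 : ℝ) = ∑ f : Fin n → Bool, rwt (1 / 2) a f := (rwt_sum _ _).symm
      _ ≤ ∑ f : Fin n → Bool, ∑ p ∈ A.det.natAbs.primeFactors,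
          (if ∃ hp : Fact p.Prime, r ≤ nul p A ∧
            bv (ZMod p) f - 0 ∈ LinearMap.range (Matrix.mulVecLin (red p A)) then
            rwt (1 / 2) a f else 0) := by
          refine Finset.sum_le_sum (fun f _ => ?_)
          have hw := rwt_nonneg (η := 1 / 2) (by norm_num) (by norm_num) a f
          obtain ⟨p, hpm, hpb⟩ := hbad f
          calc rwt (1 / 2) a f = (if ∃ hp : Fact p.Prime, r ≤ nul p A ∧
                bv (ZMod p) f - 0 ∈ LinearMap.range (Matrix.mulVecLin (red p A)) then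
                rwt (1 / 2) a f else 0) := (if_pos hpb).symm
            _ ≤ _ := Finset.single_le_sum (f := fun p => (if ∃ hp : Fact p.Prime,
                r ≤ nul p A ∧
                bv (ZMod p) f - 0 ∈ LinearMap.range (Matrix.mulVecLin (red p A)) then
                rwt (1 / 2) a f else 0)) (fun q _ => by split_ifs <;> [exact hw; exact le_refl _])
                hpm
      _ = ∑ p ∈ A.det.natAbs.primeFactors, ∑ f : Fin n → Bool,
          (if ∃ hp : Fact p.Prime, r ≤ nul p A ∧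
            bv (ZMod p) f - 0 ∈ LinearMap.range (Matrix.mulVecLin (red p A)) then
            rwt (1 / 2) a f else 0) := Finset.sum_comm
      _ ≤ ∑ p ∈ A.det.natAbs.primeFactors, (1 / 2 : ℝ) ^ r := by
          refine Finset.sum_le_sum (fun p hp => ?_)
          have hpp : Fact p.Prime := ⟨Nat.prime_of_mem_primeFactors hp⟩
          by_cases hrp : r ≤ nul p A
          · have hodl := odlyzko (ZMod p) (η := 1 / 2) (by norm_num) (by norm_num) n
              (LinearMap.range (Matrix.mulVecLin (red p A))) 0 a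
            have hrank := nul_add_rank p A
            rw [Fintype.card_fin] at hrank
            have hle : (1 - 1 / 2 : ℝ) ^ (n - Module.finrank (ZMod p)
                (LinearMap.range (Matrix.mulVecLin (red p A)))) ≤ (1 / 2 : ℝ) ^ r := by
              have e : (1 - 1 / 2 : ℝ) = 1 / 2 := by norm_num
              rw [e]
              refine pow_le_pow_of_le_one (by norm_num) (by norm_num) ?_
              have : Module.finrank (ZMod p)
                (LinearMap.range (Matrix.mulVecLin (red p A))) = (red p A).rank := rfl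
              omega
            refine le_trans (le_of_eq ?_) (hodl.trans hle)
            refine Finset.sum_congr rfl (fun f _ => if_congr ?_ rfl rfl)
            exact ⟨fun ⟨_, _, hh⟩ => hh, fun hh => ⟨hpp, hrp, hh⟩⟩
          · have : ∀ f : Fin n → Bool, (if ∃ hp : Fact p.Prime, r ≤ nul p A ∧
                bv (ZMod p) f - 0 ∈ LinearMap.range (Matrix.mulVecLin (red p A)) then
                rwt (1 / 2) a f else 0) = 0 := by
              intro f
              refine if_neg ?_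
              rintro ⟨_, hh, _⟩
              exact hrp hh
            simp_rw [this]
            simp
  rw [Finset.sum_const, nsmul_eq_mul] at h1
  have h2 : ((A.det.natAbs.primeFactors.card : ℕ) : ℝ) < 2 ^ r := by exact_mod_cast hcard
  have h3 : ((A.det.natAbs.primeFactors.card : ℕ) : ℝ) * (1 / 2 : ℝ) ^ r < 1 := by
    rw [one_div, inv_pow]
    rw [← div_eq_mul_inv, div_lt_one (by positivity)]
    exact h2
  linarith

/-- The cheap reduction step: only one new row and column. -/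
lemma cheap_step {n : ℕ} (A : Matrix (Fin n) (Fin n) ℤ) (hbin : IsBin A) (hA : A.det ≠ 0) (r : ℕ)
    (hr : 1 ≤ r) (hcard : A.det.natAbs.primeFactors.card < 2 ^ r)
    (hn : ∀ (p : ℕ) [Fact p.Prime], nul p A ≤ r + 1) :
    ∃ B : Matrix (Fin (n + 1)) (Fin (n + 1)) ℤ, IsBin B ∧ |A.det| ≤ 2 * |B.det| ∧
      ∀ (p : ℕ) [Fact p.Prime], nul p B ≤ r := by
  obtain ⟨f, hf⟩ := exists_colGood01 A hA r hr hcard
  obtain ⟨g, hg⟩ := exists_colGood01 Aᵀ (by rwa [Matrix.det_transpose]) r hr
    (by rwa [Matrix.det_transpose])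
  -- choice of the corner
  obtain ⟨e, he01, he⟩ : ∃ e : ℤ, (e = 0 ∨ e = 1) ∧
      |A.det| ≤ 2 * |(bord A (bz f) (bz g) e).det| := by
    have hcase : (1 / 2 : ℚ) ≤ |((0 : ℤ) : ℚ) - phi A (bz f) (bz g)| ∨
        (1 / 2 : ℚ) ≤ |((1 : ℤ) : ℚ) - phi A (bz f) (bz g)| := by
      by_contra hcon
      push Not at hcon
      obtain ⟨h1, h2⟩ := hcon
      rw [abs_lt] at h1 h2
      push_cast at h1 h2
      linarith [h1.1, h1.2, h2.1, h2.2]
    have key : ∀ e : ℤ, (1 / 2 : ℚ) ≤ |(e : ℚ) - phi A (bz f) (bz g)| →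
        |A.det| ≤ 2 * |(bord A (bz f) (bz g) e).det| := by
      intro e he
      have h1 : |(A.det : ℚ)| ≤ 2 * |((bord A (bz f) (bz g) e).det : ℚ)| := by
        rw [det_bord A hA, abs_mul]
        nlinarith [abs_nonneg (A.det : ℚ)]
      exact_mod_cast h1
    rcases hcase with h | h
    · exact ⟨0, Or.inl rfl, key 0 h⟩
    · exact ⟨1, Or.inr rfl, key 1 h⟩
  have hbz : ∀ (f : Fin n → Bool) (j : Fin n), bz f j = 0 ∨ bz f j = 1 := by
    intro f j
    simp only [bz]
    split_ifs <;> simp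
  have hcardE : Fintype.card (Fin n ⊕ Unit) = Fintype.card (Fin (n + 1)) := by simp
  let eqv : Fin n ⊕ Unit ≃ Fin (n + 1) := Fintype.equivOfCardEq hcardE
  refine ⟨(bord A (bz f) (bz g) e).reindex eqv eqv, ?_, ?_, ?_⟩
  · intro i j
    rw [Matrix.reindex_apply, Matrix.submatrix_apply]
    rcases eqv.symm i with i | i <;> rcases eqv.symm j with j | j
    · exact hbin i j
    · exact hbz f i
    · exact hbz g j
    · exact he01
  · rw [Matrix.det_reindex_self]; exact he
  · intro p hp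
    refine (nul_reindex p eqv _).trans ?_
    refine nul_bord_le_max p A _ _ _ r (hn p) (fun hrp => ⟨hf p hrp, hg p ?_⟩)
    rw [nul_transpose]; exact hrp

lemma card_primeFactors_lt {n N l r : ℕ} (A : Matrix (Fin n) (Fin n) ℤ) (hbin : IsBin A)
    (hA : A.det ≠ 0) (hnN : n ≤ N) (hl : N < 2 ^ l) (hr : N * l < 2 ^ r) :
    A.det.natAbs.primeFactors.card < 2 ^ r := by
  set D := A.det.natAbs with hD
  have hD0 : D ≠ 0 := by simpa [hD] using hA
  have h1 : 2 ^ D.primeFactors.card ≤ D := by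
    calc 2 ^ D.primeFactors.card = ∏ _p ∈ D.primeFactors, 2 := by
          rw [Finset.prod_const]
      _ ≤ ∏ p ∈ D.primeFactors, p :=
          Finset.prod_le_prod' (fun p hp => (Nat.prime_of_mem_primeFactors hp).two_le)
      _ ≤ D := Nat.le_of_dvd (Nat.pos_of_ne_zero hD0) (Nat.prod_primeFactors_dvd D)
  have h2 : D ≤ N ^ N := by
    have h3 := abs_det_le_factorial A hbin
    rw [Fintype.card_fin] at h3
    have h4 : D ≤ n.factorial := by
      have : ((D : ℕ) : ℤ) ≤ (n.factorial : ℤ) := by rw [hD, Int.natCast_natAbs]; exact h3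
      exact_mod_cast this
    calc D ≤ n.factorial := h4
      _ ≤ N.factorial := Nat.factorial_le hnN
      _ ≤ N ^ N := Nat.factorial_le_pow N
  have h5 : N ^ N ≤ 2 ^ (l * N) := by
    rw [pow_mul]; exact Nat.pow_le_pow_left hl.le N
  have h6 : D.primeFactors.card ≤ l * N :=
    (Nat.pow_le_pow_iff_right (by norm_num : 1 < 2)).1 (h1.trans (h2.trans h5))
  rw [mul_comm] at h6
  omega

lemma iter_cheap {N l r : ℕ} (hr1 : 1 ≤ r) (hl : N < 2 ^ l) (hr : N * l < 2 ^ r) (j : ℕ) :
    ∀ {n : ℕ} (A : Matrix (Fin n) (Fin n) ℤ), IsBin A → A.det ≠ 0 → n + j ≤ N →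
    (∀ (p : ℕ) [Fact p.Prime], nul p A ≤ r + j) →
    ∃ B : Matrix (Fin (n + j)) (Fin (n + j)) ℤ, IsBin B ∧ |A.det| ≤ 2 ^ j * |B.det| ∧
      ∀ (p : ℕ) [Fact p.Prime], nul p B ≤ r := by
  induction j with
  | zero =>
    intro n A hbin hA hn hnul
    exact ⟨A, hbin, by simp, hnul⟩
  | succ j ih =>
    intro n A hbin hA hn hnul
    have hc := card_primeFactors_lt A hbin hA (by omega : n ≤ N) hl hr
    obtain ⟨B, hB, hBdet, hBnul⟩ := cheap_step A hbin hA (r + j) (by omega)
      (hc.trans_le (Nat.pow_le_pow_right (by norm_num) (by omega))) hnul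
    have hB0 : B.det ≠ 0 := by
      intro h0
      rw [h0, abs_zero, mul_zero] at hBdet
      exact hA (abs_nonpos_iff.1 hBdet)
    obtain ⟨C, hC, hCdet, hCnul⟩ := ih B hB hB0 (by omega) hBnul
    have e : n + 1 + j = n + (j + 1) := by omega
    rw [← e]
    refine ⟨C, hC, ?_, hCnul⟩
    calc |A.det| ≤ 2 * |B.det| := hBdet
      _ ≤ 2 * (2 ^ j * |C.det|) := by gcongr
      _ = 2 ^ (j + 1) * |C.det| := by ring

/-- Combined statement: from a matrix of order `n` with coranks at most `2 l + j`, all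
numbers up to `|det| / 2 ^ j` are reached in order `n + j + 2 l (1 + 12 l)`. -/
lemma reach2 {n j l N : ℕ} (hl1 : 1 ≤ l) (hN : N = n + j + 2 * l * (1 + 12 * l)) (hl : N < 2 ^ l)
    (A : Matrix (Fin n) (Fin n) ℤ) (hbin : IsBin A) (hA : A.det ≠ 0)
    (hnul : ∀ (p : ℕ) [Fact p.Prime], nul p A ≤ 2 * l + j) (x : ℕ)
    (hx : 2 ^ j * (x : ℤ) ≤ |A.det|) :
    ∃ B : Matrix (Fin N) (Fin N) ℤ, IsBin B ∧ |B.det| = x := by
  have hr : N * l < 2 ^ (2 * l) := by
    have h1 : l < 2 ^ l := Nat.lt_two_pow_self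
    calc N * l ≤ N * 2 ^ l := Nat.mul_le_mul_left _ h1.le
      _ < 2 ^ l * 2 ^ l := Nat.mul_lt_mul_of_pos_right hl (by positivity)
      _ = 2 ^ (2 * l) := by rw [← pow_add]; congr 1; ring
  obtain ⟨B, hB, hBdet, hBnul⟩ := iter_cheap (by omega : 1 ≤ 2 * l) hl hr j A hbin hA
    (by omega) hnul
  have hB0 : B.det ≠ 0 := by
    intro h0
    rw [h0, abs_zero, mul_zero] at hBdet
    exact hA (abs_nonpos_iff.1 hBdet)
  have hxB : (x : ℤ) ≤ |B.det| := by
    have h1 : (2 : ℤ) ^ j * x ≤ 2 ^ j * |B.det| := hx.trans hBdet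
    exact le_of_mul_le_mul_left h1 (by positivity)
  have ht : 2 * l - 1 + 1 = 2 * l := by omega
  obtain ⟨κ, i1, i2, hcard, C, hC, hCdet⟩ := reach (2 * l) (2 * l - 1) B hB hB0
    (by rw [ht]; exact hBnul) (by
      rw [Fintype.card_fin]
      have h1 : n + j + (2 * l - 1) * (1 + 6 * (2 * l)) ≤ N := by
        rw [hN]
        have : (2 * l - 1) * (1 + 6 * (2 * l)) ≤ 2 * l * (1 + 12 * l) := by
          apply Nat.mul_le_mul (by omega) (by omega)
        omega
      have h2 : ((n + j + (2 * l - 1) * (1 + 6 * (2 * l)) : ℕ) : ℤ) ≤ (N : ℤ) := by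
        exact_mod_cast h1
      have h3 : (N : ℤ) ≤ 2 ^ l - 1 := by
        have : (N : ℤ) < 2 ^ l := by exact_mod_cast hl
        omega
      have h4 : (0 : ℤ) ≤ ((n + j + (2 * l - 1) * (1 + 6 * (2 * l)) : ℕ) : ℤ) := by positivity
      have h5 : (1 : ℤ) ≤ 2 ^ l := one_le_pow₀ (by norm_num)
      have h6 : ((n + j + (2 * l - 1) * (1 + 6 * (2 * l)) : ℕ) : ℤ) ^ 2 ≤ (2 ^ l - 1) ^ 2 := by
        apply pow_le_pow_left₀ h4; linarith
      have h7 : (2 : ℤ) ^ (2 * l + 1) = 2 * (2 ^ l) ^ 2 := by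
        rw [← pow_mul, pow_succ, mul_comm l 2]; ring
      rw [h7]
      nlinarith) x hxB
  have hcard' : Fintype.card κ = Fintype.card (Fin N) := by
    rw [hcard, Fintype.card_fin, Fintype.card_fin, ht, hN]
    ring
  let eqv : κ ≃ Fin N := Fintype.equivOfCardEq hcard'
  refine ⟨C.reindex eqv eqv, ?_, ?_⟩
  · intro i k
    exact hC _ _
  · rw [Matrix.det_reindex_self]; exact hCdet

end Pool.Agent.DetSpec
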