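import Mathlib
import Pool.Agent.DetSpec.Cheap

set_option autoImplicit false
set_option linter.unusedSectionVars false

open Matrix

namespace Pool.Agent.DetSpec

/-- The maximal absolute determinant of a binary matrix of order `n`. -/
def maxDet (n : ℕ) : ℕ :=
  Finset.univ.sup (fun B : Fin n → Fin n → Bool => (matZ B).det.natAbs)

lemma le_maxDet {n : ℕ} (A : Matrix (Fin n) (Fin n) ℤ) (hA : IsBin A) :
    A.det.natAbs ≤ maxDet n := by
  obtain ⟨B, rfl⟩ := exists_matZ A hA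
  exact Finset.le_sup (f := fun B : Fin n → Fin n → Bool => (matZ B).det.natAbs)
    (Finset.mem_univ B)

lemma maxDet_succ_le (n : ℕ) : maxDet (n + 1) ≤ (n + 1) * maxDet n := by
  refine Finset.sup_le (fun B _ => ?_)
  rw [Matrix.det_succ_row_zero]
  refine (Int.natAbs_sum_le _ _).trans ?_
  calc ∑ j : Fin (n + 1), ((-1) ^ (j : ℕ) * (matZ B) 0 j *
        ((matZ B).submatrix Fin.succ j.succAbove).det).natAbs
      ≤ ∑ _j : Fin (n + 1), maxDet n := by
        refine Finset.sum_le_sum (fun j _ => ?_)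
        rw [Int.natAbs_mul, Int.natAbs_mul, Int.natAbs_pow, Int.natAbs_neg, Int.natAbs_one,
          one_pow, one_mul]
        have h1 : ((matZ B) 0 j).natAbs ≤ 1 := by
          rcases matZ_bin B 0 j with h | h <;> simp [h]
        have h2 : ((matZ B).submatrix Fin.succ j.succAbove).det.natAbs ≤ maxDet n :=
          le_maxDet _ (fun i k => matZ_bin B _ _)
        calc _ ≤ 1 * maxDet n := Nat.mul_le_mul h1 h2
          _ = maxDet n := one_mul _
    _ = (n + 1) * maxDet n := by simp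

lemma maxDet_le {n N : ℕ} (h : n ≤ N) : maxDet N ≤ N ^ (N - n) * maxDet n := by
  induction N, h using Nat.le_induction with
  | base => simp
  | succ N hN ih =>
    calc maxDet (N + 1) ≤ (N + 1) * maxDet N := maxDet_succ_le N
      _ ≤ (N + 1) * (N ^ (N - n) * maxDet n) := Nat.mul_le_mul_left _ ih
      _ ≤ (N + 1) * ((N + 1) ^ (N - n) * maxDet n) := by
          gcongr
          omega
      _ = (N + 1) ^ (N + 1 - n) * maxDet n := by
          rw [Nat.succ_sub hN, pow_succ]; ring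

lemma isMax_pos {n : ℕ} (A0 : Fin n → Fin n → Bool) (h : IsMax A0) : 0 < (matR A0).det := by
  have h1 := h (fun i j => decide (i = j))
  have h2 : matR (fun i j : Fin n => decide (i = j)) = 1 := by
    ext i j
    simp [matR, Matrix.one_apply]
  rw [h2, Matrix.det_one, abs_one] at h1
  linarith

lemma maxDet_eq {n : ℕ} (A0 : Fin n → Fin n → Bool) (h : IsMax A0) :
    (maxDet n : ℝ) ≤ (matR A0).det := by
  have h1 : maxDet n ≤ (matZ A0).det.natAbs := by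
    refine Finset.sup_le (fun B _ => ?_)
    have h2 := h B
    rw [matR_det, matR_det] at h2
    have h3 : |(matZ B).det| ≤ (matZ A0).det := by exact_mod_cast h2
    have h4 : ((matZ B).det.natAbs : ℤ) ≤ ((matZ A0).det.natAbs : ℤ) := by
      rw [Int.natCast_natAbs, Int.natCast_natAbs]
      exact h3.trans (le_abs_self _)
    exact_mod_cast h4
  have h5 := isMax_pos A0 h
  rw [matR_det] at h5 ⊢
  have h6 : 0 < (matZ A0).det := by exact_mod_cast h5
  have h7 : ((maxDet n : ℕ) : ℤ) ≤ (matZ A0).det := by omega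
  exact_mod_cast h7

lemma exp_ineq {η : ℝ} (h0 : 0 ≤ η) (h1 : η ≤ 1 / 4) : Real.exp (-(4 * η)) ≤ 1 - 2 * η := by
  have h2 : 1 + 4 * η ≤ Real.exp (4 * η) := by
    have := Real.add_one_le_exp (4 * η); linarith
  rw [Real.exp_neg]
  have h3 : (Real.exp (4 * η))⁻¹ ≤ (1 + 4 * η)⁻¹ := inv_anti₀ (by linarith) h2
  refine h3.trans ?_
  rw [inv_le_iff_one_le_mul₀ (by linarith)]
  nlinarith

/-- Numerical growth facts. -/
lemma growth (l : ℕ) (hl : 15 ≤ l) : (24 * l ^ 2 + 2 * l + 13) ^ 2 ≤ 13456 * 2 ^ (l - 1) ∧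
    4 * (24 * l ^ 2 + 2 * l + 13) ≤ 3 * 2 ^ (l - 1) := by
  induction l, hl using Nat.le_induction with
  | base => norm_num
  | succ l hl ih =>
    obtain ⟨h1, h2⟩ := ih
    have e : 2 ^ (l + 1 - 1) = 2 * 2 ^ (l - 1) := by
      rw [← pow_succ']; congr 1; omega
    rw [e]
    have h3 : 5 * (24 * (l + 1) ^ 2 + 2 * (l + 1) + 13) ≤ 6 * (24 * l ^ 2 + 2 * l + 13) := by
      nlinarith
    constructor
    · nlinarith
    · omega

/-- The natural number parameters. -/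
lemma params (N : ℕ) (hN : 16384 ≤ N) : ∃ l s j n : ℕ, 15 ≤ l ∧ N < 2 ^ l ∧ 2 ^ (l - 1) ≤ N ∧
    s = Nat.sqrt N + 1 ∧ N < s ^ 2 ∧ 129 ≤ s ∧ 4 * l ≤ s ∧ 2 * l + j = 4 * s ∧
    N = n + j + 2 * l * (1 + 12 * l) ∧ 2 ≤ n ∧
    (24 * l ^ 2 + 2 * l + 13) ^ 2 ≤ 13456 * N := by
  set l := Nat.log 2 N + 1 with hl
  set s := Nat.sqrt N + 1 with hs
  have hNl : N < 2 ^ l := Nat.lt_pow_succ_log_self (by norm_num) N
  have hlN : 2 ^ (l - 1) ≤ N := by
    have : l - 1 = Nat.log 2 N := by omega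
    rw [this]
    exact Nat.pow_log_le_self 2 (by omega)
  have hl15 : 15 ≤ l := by
    have : 14 ≤ Nat.log 2 N := Nat.le_log_of_pow_le (by norm_num) (by norm_num; omega)
    omega
  obtain ⟨g1, g2⟩ := growth l hl15
  have hsN : N < s ^ 2 := by
    rw [hs, sq]; exact Nat.lt_succ_sqrt N
  have hsqrt : Nat.sqrt N * Nat.sqrt N ≤ N := Nat.sqrt_le N
  have hs128 : 128 ≤ Nat.sqrt N := by
    rw [Nat.le_sqrt]; omega
  have hs129 : 129 ≤ s := by omega
  have h4s : 4 * (4 * s) ≤ N := by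
    have h1 : s = Nat.sqrt N + 1 := hs
    rw [h1]
    calc 4 * (4 * (Nat.sqrt N + 1)) ≤ 128 * Nat.sqrt N := by omega
      _ ≤ Nat.sqrt N * Nat.sqrt N := Nat.mul_le_mul_right _ hs128
      _ ≤ N := hsqrt
  have hg3 : 4 * (24 * l ^ 2 + 2 * l + 13) ≤ 3 * N := g2.trans (Nat.mul_le_mul_left _ hlN)
  have hls : 4 * l ≤ s := by
    have h1 : 96 * l ^ 2 ≤ 3 * s ^ 2 := by omega
    have h2 : (4 * l) ^ 2 ≤ s ^ 2 := by
      have : (4 * l) ^ 2 = 16 * l ^ 2 := by ring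
      rw [this]; omega
    exact (Nat.pow_le_pow_iff_left (by norm_num)).1 h2
  have h6 : 2 * l * (1 + 12 * l) = 24 * l ^ 2 + 2 * l := by ring
  have hj : 2 * l ≤ 4 * s := by omega
  refine ⟨l, s, 4 * s - 2 * l, N - (4 * s - 2 * l) - 2 * l * (1 + 12 * l), hl15, hNl, hlN, hs,
    hsN, hs129, hls, by omega, ?_, ?_, ?_⟩
  · rw [h6]; omega
  · rw [h6]; omega
  · exact g1.trans (Nat.mul_le_mul_left _ hlN)

/-- The real number estimates. -/
lemma estimates (N n s : ℕ) (hN : 16384 ≤ N) (hn : 1 ≤ n) (hnN : n ≤ N) (hsN : N < s ^ 2)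
    (hs : 129 ≤ s) (η : ℝ) (hη0 : 0 ≤ η) (hη4 : η ≤ 1 / 4) (hηs : η * s = Real.log N) :
    (n : ℝ) * (1 - η) ^ (4 * s) ≤ 1 ∧
    ((N ^ s : ℕ) : ℝ) * (3 * ((n : ℝ) * (1 - η) ^ (4 * s)) ^ (4 * s)) < (1 - 2 * η) ^ n / 2 ∧
    1 / (N : ℝ) ^ (4 * s) ≤ (1 - 2 * η) ^ n := by
  have hNr : (16384 : ℝ) ≤ N := by exact_mod_cast hN
  have hNpos : (0 : ℝ) < N := by linarith
  have hlogpos : 0 < Real.log N := Real.log_pos (by linarith)
  have hnr : (n : ℝ) ≤ N := by exact_mod_cast hnN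
  have h0' : 0 ≤ 1 - η := by linarith
  have hqk : (1 - η) ^ (4 * s) ≤ 1 / (N : ℝ) ^ 4 := by
    have h1 : 1 - η ≤ Real.exp (-η) := by
      have := Real.add_one_le_exp (-η); linarith
    calc (1 - η) ^ (4 * s) ≤ (Real.exp (-η)) ^ (4 * s) := pow_le_pow_left₀ h0' h1 _
      _ = Real.exp (-(4 * Real.log N)) := by
          rw [← Real.exp_nat_mul]
          congr 1
          push_cast
          linear_combination (-4) * hηs
      _ = 1 / (N : ℝ) ^ 4 := by
          rw [Real.exp_neg, one_div]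
          congr 1
          rw [show (4 : ℝ) * Real.log N = ((4 : ℕ) : ℝ) * Real.log N by norm_num,
            Real.exp_nat_mul, Real.exp_log hNpos]
  have hq0 : 0 ≤ (1 - η) ^ (4 * s) := pow_nonneg h0' _
  have hnq : (n : ℝ) * (1 - η) ^ (4 * s) ≤ 1 / (N : ℝ) ^ 3 := by
    calc (n : ℝ) * (1 - η) ^ (4 * s) ≤ N * (1 / (N : ℝ) ^ 4) :=
          mul_le_mul hnr hqk hq0 hNpos.le
      _ = 1 / (N : ℝ) ^ 3 := by field_simp
  have hN3 : 1 / (N : ℝ) ^ 3 ≤ 1 := by
    rw [div_le_one (by positivity)]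
    exact one_le_pow₀ (by linarith)
  have hθ : 1 / (N : ℝ) ^ (4 * s) ≤ (1 - 2 * η) ^ n := by
    have h1 := exp_ineq hη0 hη4
    calc 1 / (N : ℝ) ^ (4 * s) = Real.exp (-((4 * s : ℕ) * Real.log N)) := by
          rw [Real.exp_neg, Real.exp_nat_mul, Real.exp_log hNpos, one_div]
      _ ≤ Real.exp (n * (-(4 * η))) := by
          apply Real.exp_le_exp.2
          have h2 : (n : ℝ) ≤ (s : ℝ) ^ 2 := by
            have : n ≤ s ^ 2 := by omega
            exact_mod_cast this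
          have h3 : η * n ≤ Real.log N * s := by
            calc η * n ≤ η * (s : ℝ) ^ 2 := mul_le_mul_of_nonneg_left h2 hη0
              _ = Real.log N * s := by rw [sq, ← mul_assoc, hηs]
          push_cast
          linarith
      _ = (Real.exp (-(4 * η))) ^ n := by rw [Real.exp_nat_mul]
      _ ≤ (1 - 2 * η) ^ n := pow_le_pow_left₀ (Real.exp_pos _).le h1 n
  refine ⟨hnq.trans hN3, ?_, hθ⟩
  have h1 : ((n : ℝ) * (1 - η) ^ (4 * s)) ^ (4 * s) ≤ (1 / (N : ℝ) ^ 3) ^ (4 * s) :=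
    pow_le_pow_left₀ (by positivity) hnq _
  have h2 : ((N ^ s : ℕ) : ℝ) * (3 * ((n : ℝ) * (1 - η) ^ (4 * s)) ^ (4 * s)) ≤
      (N : ℝ) ^ s * (3 * (1 / (N : ℝ) ^ 3) ^ (4 * s)) := by
    push_cast
    gcongr
  have h3 : (N : ℝ) ^ s * (3 * (1 / (N : ℝ) ^ 3) ^ (4 * s)) = 3 / (N : ℝ) ^ (11 * s) := by
    rw [one_div, inv_pow, ← pow_mul]
    have : (N : ℝ) ^ (3 * (4 * s)) = (N : ℝ) ^ (11 * s) * (N : ℝ) ^ s := by
      rw [← pow_add]; congr 1; ring
    rw [this]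
    field_simp
  have h4 : 3 / (N : ℝ) ^ (11 * s) < (1 / (N : ℝ) ^ (4 * s)) / 2 := by
    have h5 : (N : ℝ) ^ (11 * s) = (N : ℝ) ^ (7 * s) * (N : ℝ) ^ (4 * s) := by
      rw [← pow_add]; congr 1; ring
    rw [h5, div_div, div_lt_div_iff₀ (by positivity) (by positivity)]
    have h6 : (7 : ℝ) ≤ (N : ℝ) ^ (7 * s) := by
      calc (7 : ℝ) ≤ N := by linarith
        _ = (N : ℝ) ^ 1 := (pow_one _).symm
        _ ≤ (N : ℝ) ^ (7 * s) := pow_le_pow_right₀ (by linarith) (by omega)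
    have h7 : (0 : ℝ) < (N : ℝ) ^ (4 * s) := by positivity
    have h8 : 7 * (N : ℝ) ^ (4 * s) ≤ (N : ℝ) ^ (7 * s) * (N : ℝ) ^ (4 * s) :=
      mul_le_mul_of_nonneg_right h6 h7.le
    linarith
  calc _ ≤ _ := h2
    _ = 3 / (N : ℝ) ^ (11 * s) := h3
    _ < (1 / (N : ℝ) ^ (4 * s)) / 2 := h4
    _ ≤ (1 - 2 * η) ^ n / 2 := by linarith

/-- A good matrix of order `n`. -/
lemma good_matrix (N n s l : ℕ) (hN : 16384 ≤ N) (hn : 2 ≤ n) (hnN : n ≤ N) (hsN : N < s ^ 2)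
    (hs : 129 ≤ s) (hl : 4 * l ≤ s) (hNl : N < 2 ^ l) :
    ∃ B : Matrix (Fin n) (Fin n) ℤ, IsBin B ∧
      (maxDet n : ℝ) ≤ 2 * (N : ℝ) ^ (4 * s) * B.det ∧ B.det ≠ 0 ∧
      ∀ (p : ℕ) [Fact p.Prime], nul p B ≤ 4 * s := by
  have hNr : (16384 : ℝ) ≤ N := by exact_mod_cast hN
  have hNpos : (0 : ℝ) < N := by linarith
  have hlogpos : 0 < Real.log N := Real.log_pos (by linarith)
  have hspos : (0 : ℝ) < s := by
    have : (129 : ℝ) ≤ s := by exact_mod_cast hs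
    linarith
  set η : ℝ := Real.log N / s with hη
  have hη0 : 0 ≤ η := by positivity
  have hηs : η * s = Real.log N := by rw [hη]; field_simp
  have hη4 : η ≤ 1 / 4 := by
    rw [hη, div_le_div_iff₀ hspos (by norm_num)]
    have h1 : Real.log N ≤ l * Real.log 2 := by
      rw [← Real.log_pow]
      apply Real.log_le_log hNpos
      exact_mod_cast hNl.le
    have h2 : Real.log 2 < 1 := by
      have := Real.log_two_lt_d9; linarith
    have hl0 : (0 : ℝ) ≤ l := Nat.cast_nonneg l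
    have h3 : (l : ℝ) * Real.log 2 ≤ l * 1 := mul_le_mul_of_nonneg_left h2.le hl0
    have h4' : (4 : ℝ) * l ≤ s := by exact_mod_cast hl
    linarith
  obtain ⟨A0, hA0⟩ := exists_isMax n hn
  have hD := isMax_pos A0 hA0
  obtain ⟨e1, e2, e3⟩ := estimates N n s hN (by omega) hnN hsN hs η hη0 hη4 hηs
  have hP : (n.factorial : ℝ) < ((N ^ s : ℕ) : ℝ) ^ (4 * s) := by
    have h1 : n.factorial < (N ^ s) ^ (4 * s) := by
      calc n.factorial ≤ N.factorial := Nat.factorial_le hnN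
        _ ≤ N ^ N := Nat.factorial_le_pow N
        _ < N ^ (s * (4 * s)) := by
            apply Nat.pow_lt_pow_right (by omega)
            have : s * (4 * s) = 4 * s ^ 2 := by ring
            omega
        _ = (N ^ s) ^ (4 * s) := pow_mul _ _ _
    exact_mod_cast h1
  obtain ⟨B, hBdet, hBnul⟩ := exists_good (by omega : 1 ≤ n) A0 hA0 hD hη0 (by linarith)
    (4 * s) (N ^ s) e1 e2 hP (Nat.one_le_pow _ _ (by omega))
  have hBpos : 0 < (matR B).det := by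
    refine lt_of_lt_of_le ?_ hBdet
    have : 0 < (1 - 2 * η) ^ n := pow_pos (by linarith) n
    positivity
  have hBZ : 0 < (matZ B).det := by
    rw [matR_det] at hBpos
    exact_mod_cast hBpos
  refine ⟨matZ B, matZ_bin B, ?_, hBZ.ne', hBnul⟩
  have hX : (0 : ℝ) < (N : ℝ) ^ (4 * s) := by positivity
  have h1 : (1 / (N : ℝ) ^ (4 * s)) / 2 * (matR A0).det ≤ (matR B).det := by
    refine le_trans ?_ hBdet
    exact mul_le_mul_of_nonneg_right (by linarith) hD.le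
  have h2 := maxDet_eq A0 hA0
  rw [← matR_det]
  calc (maxDet n : ℝ) ≤ (matR A0).det := h2
    _ = 2 * (N : ℝ) ^ (4 * s) * ((1 / (N : ℝ) ^ (4 * s)) / 2 * (matR A0).det) := by
        field_simp
    _ ≤ 2 * (N : ℝ) ^ (4 * s) * (matR B).det := by gcongr

lemma exp_bound (N l s t : ℕ) (hN : 16384 ≤ N) (hs : s = Nat.sqrt N + 1)
    (ht : t ≤ 12 * s + (24 * l ^ 2 + 2 * l + 1))
    (g : (24 * l ^ 2 + 2 * l + 13) ^ 2 ≤ 13456 * N) :
    (N : ℝ) ^ t * Real.exp (-(128 * √N * Real.log N)) ≤ 1 := by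
  have hNr : (16384 : ℝ) ≤ N := by exact_mod_cast hN
  have hNpos : (0 : ℝ) < N := by linarith
  have hlogpos : 0 < Real.log N := Real.log_pos (by linarith)
  have h2 : (N : ℝ) ^ t = Real.exp ((t : ℝ) * Real.log N) := by
    rw [Real.exp_nat_mul, Real.exp_log hNpos]
  rw [h2, ← Real.exp_add, Real.exp_le_one_iff]
  have h3 : (t : ℝ) ≤ 128 * √N := by
    have h5 : ((Nat.sqrt N : ℕ) : ℝ) ≤ √N := Real.nat_sqrt_le_real_sqrt
    have h6 : (t : ℝ) ≤ ((12 * s + (24 * l ^ 2 + 2 * l + 1) : ℕ) : ℝ) := by exact_mod_cast ht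
    refine h6.trans ?_
    have h7 : ((24 * l ^ 2 + 2 * l + 13 : ℕ) : ℝ) ≤ 116 * √N := by
      have h10 : (((24 * l ^ 2 + 2 * l + 13) ^ 2 : ℕ) : ℝ) ≤ ((13456 * N : ℕ) : ℝ) := by
        exact_mod_cast g
      have h8 : ((24 * l ^ 2 + 2 * l + 13 : ℕ) : ℝ) ^ 2 ≤ (116 * √N) ^ 2 := by
        rw [mul_pow, Real.sq_sqrt hNpos.le]
        push_cast at h10 ⊢
        linarith
      exact le_of_sq_le_sq h8 (by positivity)
    have h11 : ((12 * s + (24 * l ^ 2 + 2 * l + 1) : ℕ) : ℝ) =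
        12 * ((Nat.sqrt N : ℕ) : ℝ) + ((24 * l ^ 2 + 2 * l + 13 : ℕ) : ℝ) := by
      rw [hs]; push_cast; ring
    rw [h11]
    linarith
  nlinarith

lemma main_matrix (N : ℕ) (hN : 16384 ≤ N) (A' : Matrix (Fin N) (Fin N) ℤ) (hA' : IsBin A')
    (x : ℕ)
    (hx : (x : ℝ) ≤ (A'.det.natAbs : ℝ) * Real.exp (-(128 * √N * Real.log N))) :
    ∃ B : Matrix (Fin N) (Fin N) ℤ, IsBin B ∧ |B.det| = x := by
  obtain ⟨l, s, j, n, hl15, hNl, hlN, hs, hsN, hs129, hls, hj, hNn, hn2, g⟩ := params N hN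
  have hnle : n ≤ N := by omega
  obtain ⟨B, hBbin, hBdet, hB0, hBnul⟩ := good_matrix N n s l hN hn2 hnle hsN hs129 hls hNl
  have hNr : (16384 : ℝ) ≤ N := by exact_mod_cast hN
  have hNpos : (0 : ℝ) < N := by linarith
  refine reach2 (by omega : 1 ≤ l) hNn hNl B hBbin hB0 (by
    intro p hp
    rw [hj]
    exact hBnul p) x ?_
  have h1 : (A'.det.natAbs : ℝ) ≤ (N : ℝ) ^ (N - n) * maxDet n := by
    have h2 : A'.det.natAbs ≤ N ^ (N - n) * maxDet n :=
      (le_maxDet A' hA').trans (maxDet_le hnle)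
    exact_mod_cast h2
  have hexp0 : 0 < Real.exp (-(128 * √N * Real.log N)) := Real.exp_pos _
  have hE := exp_bound N l s (N - n + (j + 1) + 4 * s) hN hs (by
    have h6 : 2 * l * (1 + 12 * l) = 24 * l ^ 2 + 2 * l := by ring
    rw [h6] at hNn
    omega) g
  have h2 : (2 : ℝ) ^ (j + 1) ≤ (N : ℝ) ^ (j + 1) :=
    pow_le_pow_left₀ (by norm_num) (by linarith) _
  have hmain : (2 : ℝ) ^ j * x ≤ |(B.det : ℝ)| := by
    set E := Real.exp (-(128 * √N * Real.log N)) with hEdef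
    have hB' : (B.det : ℝ) ≤ |(B.det : ℝ)| := le_abs_self _
    have habs : 0 ≤ |(B.det : ℝ)| := abs_nonneg _
    calc (2 : ℝ) ^ j * x ≤ (2 : ℝ) ^ j * ((A'.det.natAbs : ℝ) * E) := by gcongr
      _ ≤ (2 : ℝ) ^ j * (((N : ℝ) ^ (N - n) * (2 * (N : ℝ) ^ (4 * s) * |(B.det : ℝ)|)) * E) := by
          have h5 : (A'.det.natAbs : ℝ) ≤
              (N : ℝ) ^ (N - n) * (2 * (N : ℝ) ^ (4 * s) * |(B.det : ℝ)|) := by
            refine h1.trans ?_
            refine mul_le_mul_of_nonneg_left ?_ (by positivity)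
            refine hBdet.trans ?_
            exact mul_le_mul_of_nonneg_left hB' (by positivity)
          gcongr
      _ = (2 : ℝ) ^ (j + 1) * ((N : ℝ) ^ (N - n) * (N : ℝ) ^ (4 * s) * E) * |(B.det : ℝ)| := by
          rw [pow_succ]; ring
      _ ≤ (N : ℝ) ^ (j + 1) * ((N : ℝ) ^ (N - n) * (N : ℝ) ^ (4 * s) * E) * |(B.det : ℝ)| := by
          gcongr
      _ = ((N : ℝ) ^ (N - n + (j + 1) + 4 * s) * E) * |(B.det : ℝ)| := by
          rw [pow_add, pow_add]; ring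
      _ ≤ 1 * |(B.det : ℝ)| := mul_le_mul_of_nonneg_right hE habs
      _ = |(B.det : ℝ)| := one_mul _
  exact_mod_cast hmain

end Pool.Agent.DetSpec
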